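import Mathlib

/-! The reflexive folded 5-cube on 16 vertices: finite checks with bit masks. -/

namespace Pool.Agent.H206R3.Clebsch

/-- Neighbourhood masks: `x` and `y` are related iff `x xor y` is one of `0, 1, 2, 4, 8, 15`. -/
def nbrL : List ℕ :=
  [33047, 16939, 9293, 6286, 6257, 9394, 17108, 33256, 6017, 11074, 19748, 36376, 28952, 45604,
  54338, 59521]

def nbr (x : ℕ) : ℕ := nbrL.getD x 0

/-- The relation. -/
def R (x y : Fin 16) : Prop := (nbr x.1).testBit y.1 = true

instance (x y : Fin 16) : Decidable (R x y) := inferInstanceAs (Decidable (_ = true))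

def idx : List ℕ := [0, 1, 2, 3, 4, 5, 6, 7, 8, 9, 10, 11, 12, 13, 14, 15]

/-- Pairs (bit, neighbourhood mask). -/
def prs : List (ℕ × ℕ) :=
  [(1, 33047), (2, 16939), (4, 9293), (8, 6286), (16, 6257), (32, 9394), (64, 17108),
  (128, 33256), (256, 6017), (512, 11074), (1024, 19748), (2048, 36376), (4096, 28952),
  (8192, 45604), (16384, 54338), (32768, 59521)]

/-- The mask of all vertices with a neighbour in the set of mask `M`. -/
def nb (M : ℕ) : ℕ :=
  prs.rec 0 (fun p _ acc => cond (Nat.beq (Nat.land p.2 M) 0) acc (Nat.lor acc p.1))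

/-- The number of vertices without a neighbour in the set of mask `M`. -/
def cnt (M : ℕ) : ℕ :=
  prs.rec 0 (fun p _ acc => cond (Nat.beq (Nat.land p.2 M) 0) (Nat.succ acc) acc)

def L1 : List ℕ :=
  [6399, 8079, 8177, 9471, 12111, 12274, 14259, 14285, 15219, 15310, 15485, 15550, 15567,
  15603, 16323, 17151, 20271, 20468, 22443, 22485, 23163, 23215, 23262, 23285, 23925, 23982,
  24485, 26223, 26299, 26333, 26358, 27499, 27606, 28013, 28086, 28518, 29499, 29660, 30045,
  30138, 30617, 31097, 31134, 31578, 32060, 33279, 36639, 36856, 38807, 38889, 39287, 39327,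
  39406, 39417, 40569, 40606, 40857, 42335, 42423, 42477, 42490, 43863, 44010, 44637, 44730,
  44890, 45879, 46060, 46701, 46774, 47013, 47733, 47790, 47974, 48700, 49983, 50135, 50155,
  50172, 52535, 52716, 52795, 52956, 53052, 54615, 54762, 54891, 54998, 55235, 56435, 56526,
  56678, 56922, 59799, 59881, 60075, 60117, 60355, 60595, 60621, 60837, 61081, 61727, 61944,
  61999, 62196, 62268, 62543, 62706, 62810, 63078, 63631, 63729, 63897, 64165, 64707, 65304,
  65316, 65346, 65409, 65535]

def el (n : ℕ) (l : List ℕ) : Bool := l.rec false (fun a _ r => cond (Nat.beq a n) true r)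

def al (l : List ℕ) (f : ℕ → Bool) : Bool := l.rec true (fun a _ r => cond (f a) r false)

theorem check0 : (al idx fun x => al idx fun y => el (nb (Nat.land (nbr x) (nbr y))) L1) = true := by
  decide +kernel

theorem check1 : (al L1 fun n => al L1 fun m =>
    cond (Nat.beq (Nat.land n m) 0) true (Nat.ble (cnt (Nat.land n m)) 2)) = true := by
  decide +kernel

/-! ### From masks to sets -/

theorem al_iff (l : List ℕ) (f : ℕ → Bool) : al l f = true ↔ ∀ x ∈ l, f x = true := by
  induction l with
  | nil => simp [al]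
  | cons a l ih =>
    have : al (a :: l) f = cond (f a) (al l f) false := rfl
    rw [this]
    cases h : f a <;> simp [h, ih]

theorem el_iff (n : ℕ) (l : List ℕ) : el n l = true ↔ n ∈ l := by
  induction l with
  | nil => simp [el]
  | cons a l ih =>
    have : el n (a :: l) = cond (Nat.beq a n) true (el n l) := rfl
    rw [this]
    cases h : Nat.beq a n
    · have hne : a ≠ n := fun e => by rw [e, Nat.beq_refl] at h; exact absurd h (by decide)
      simp [ih, Ne.symm hne]
    · have he : a = n := Nat.eq_of_beq_eq_true h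
      simp [he]

theorem prs_eq : prs = List.ofFn (fun v : Fin 16 => (2 ^ v.1, nbr v.1)) := by decide

theorem nbr_lt : ∀ v : Fin 16, nbr v.1 < 2 ^ 16 := by decide

theorem R_symm : ∀ x y : Fin 16, R x y → R y x := by decide

theorem land_eq_zero_iff (v : Fin 16) (M : ℕ) : Nat.land (nbr v.1) M = 0 ↔
    ∀ s : Fin 16, R v s → M.testBit s.1 = false := by
  have hl : Nat.land (nbr v.1) M = nbr v.1 &&& M := rfl
  rw [hl]
  constructor
  · intro h s hs
    have h1 : (nbr v.1 &&& M).testBit s.1 = false := by rw [h]; simp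
    rw [Nat.testBit_and] at h1
    have h2 : (nbr v.1).testBit s.1 = true := hs
    rw [h2] at h1
    simpa using h1
  · intro h
    apply Nat.eq_of_testBit_eq
    intro i
    rw [Nat.testBit_and, Nat.zero_testBit]
    by_cases hi : i < 16
    · cases h2 : (nbr v.1).testBit i
      · rfl
      · have := h ⟨i, hi⟩ h2
        simpa using this
    · have : (nbr v.1).testBit i = false := Nat.testBit_lt_two_pow
        (lt_of_lt_of_le (nbr_lt v) (Nat.pow_le_pow_right (by norm_num) (by omega)))
      rw [this]
      rfl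

/-- The mask `M` represents the set `S`. -/
def Rep (S : Set (Fin 16)) (M : ℕ) : Prop := ∀ v : Fin 16, v ∈ S ↔ M.testBit v.1 = true

theorem no_nbr_iff {S : Set (Fin 16)} {M : ℕ} (h : Rep S M) (v : Fin 16) :
    Nat.land (nbr v.1) M = 0 ↔ ¬ ∃ s ∈ S, R v s := by
  rw [land_eq_zero_iff]
  constructor
  · rintro h1 ⟨s, hs, hvs⟩
    have := h1 s hvs
    rw [(h s).1 hs] at this
    exact absurd this (by decide)
  · intro h1 s hs
    by_contra h2
    exact h1 ⟨s, (h s).2 (by simpa using h2), hs⟩

theorem rec_testBit (l : List (ℕ × ℕ)) (M i : ℕ) :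
    (l.rec 0 (fun p _ acc => cond (Nat.beq (Nat.land p.2 M) 0) acc (Nat.lor acc p.1)) : ℕ).testBit i
      = true ↔ ∃ p ∈ l, Nat.land p.2 M ≠ 0 ∧ p.1.testBit i = true := by
  induction l with
  | nil => simp
  | cons p l ih =>
    show (cond (Nat.beq (Nat.land p.2 M) 0) _ (Nat.lor _ p.1) : ℕ).testBit i = true ↔ _
    cases h : Nat.beq (Nat.land p.2 M) 0
    · have hne : Nat.land p.2 M ≠ 0 := fun e => by
        rw [e] at h; exact absurd h (by decide)
      rw [cond_false]
      have hor : ∀ a b : ℕ, (Nat.lor a b).testBit i = (a.testBit i || b.testBit i) :=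
        fun a b => Nat.testBit_or a b i
      rw [hor, Bool.or_eq_true, ih]
      simp only [List.mem_cons, exists_eq_or_imp]
      constructor
      · rintro (h1 | h1)
        · exact Or.inr h1
        · exact Or.inl ⟨hne, h1⟩
      · rintro (h1 | h1)
        · exact Or.inr h1.2
        · exact Or.inl h1
    · have he : Nat.land p.2 M = 0 := Nat.eq_of_beq_eq_true h
      rw [cond_true, ih]
      simp only [List.mem_cons, exists_eq_or_imp]
      constructor
      · exact fun h1 => Or.inr h1
      · rintro (h1 | h1)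
        · exact absurd he h1.1
        · exact h1

theorem Rep.nb {S : Set (Fin 16)} {M : ℕ} (h : Rep S M) :
    Rep {v | ∃ s ∈ S, R v s} (nb M) := by
  intro v
  have h1 : (Clebsch.nb M).testBit v.1 = true ↔
      ∃ p ∈ prs, Nat.land p.2 M ≠ 0 ∧ p.1.testBit v.1 = true := rec_testBit prs M v.1
  rw [h1, prs_eq]
  constructor
  · intro hv
    refine ⟨(2 ^ v.1, nbr v.1), ?_, ?_, ?_⟩
    · rw [List.mem_ofFn]
      exact ⟨v, rfl⟩
    · intro h2
      exact ((no_nbr_iff h v).1 h2) hv
    · exact Nat.testBit_two_pow_self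
  · rintro ⟨p, hp, h2, h3⟩
    rw [List.mem_ofFn] at hp
    obtain ⟨w, rfl⟩ := hp
    have hw : w.1 = v.1 := by
      by_contra hne
      have : (2 ^ w.1).testBit v.1 = false := Nat.testBit_two_pow_of_ne hne
      simp only at h3
      rw [this] at h3
      exact absurd h3 (by decide)
    have hw' : w = v := Fin.ext hw
    subst hw'
    by_contra hc
    exact h2 ((no_nbr_iff h w).2 hc)

theorem Rep.inter {S T : Set (Fin 16)} {M N : ℕ} (h : Rep S M) (h' : Rep T N) :
    Rep (S ∩ T) (Nat.land M N) := by
  intro v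
  have : (Nat.land M N).testBit v.1 = (M.testBit v.1 && N.testBit v.1) := Nat.testBit_and M N v.1
  rw [this, Bool.and_eq_true, ← h v, ← h' v]
  rfl

theorem rep_nbr (x : Fin 16) : Rep {v | R v x} (nbr x.1) := by
  intro v
  exact ⟨fun h => R_symm _ _ h, fun h => R_symm _ _ h⟩

theorem cnt_eq (M : ℕ) : cnt M =
    ∑ v : Fin 16, (if Nat.land (nbr v.1) M = 0 then 1 else 0) := by
  have h1 : ∀ l : List (ℕ × ℕ),
      (l.rec 0 (fun p _ acc => cond (Nat.beq (Nat.land p.2 M) 0) (Nat.succ acc) acc) : ℕ) =
        (l.map fun p => if Nat.land p.2 M = 0 then 1 else 0).sum := by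
    intro l
    induction l with
    | nil => rfl
    | cons p l ih =>
      show (cond (Nat.beq (Nat.land p.2 M) 0) (Nat.succ _) _ : ℕ) = _
      rw [List.map_cons, List.sum_cons, ih]
      cases h : Nat.beq (Nat.land p.2 M) 0
      · have hne : Nat.land p.2 M ≠ 0 := fun e => by
          rw [e] at h; exact absurd h (by decide)
        rw [cond_false, if_neg hne, zero_add]
      · have he : Nat.land p.2 M = 0 := Nat.eq_of_beq_eq_true h
        rw [cond_true, if_pos he, add_comm]
  unfold cnt
  rw [h1, prs_eq, List.map_ofFn, List.sum_ofFn]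
  rfl

theorem few_missing {S : Set (Fin 16)} {M : ℕ} (h : Rep S M) (h2 : cnt M ≤ 2) :
    ∃ F : Finset (Fin 16), F.card ≤ 2 ∧ ∀ v, v ∉ F → ∃ s ∈ S, R v s := by
  refine ⟨Finset.univ.filter (fun v : Fin 16 => Nat.land (nbr v.1) M = 0), ?_, ?_⟩
  · rw [Finset.card_filter, ← cnt_eq]
    exact h2
  · intro v hv
    rw [Finset.mem_filter, not_and] at hv
    by_contra hc
    exact hv (Finset.mem_univ v) ((no_nbr_iff h v).2 hc)

/-! ### The sign -/

/-- Sign masks: bit `v` of the `u`-th mask is set iff `u xor v` has at least three binary digits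
equal to one. -/
def kapL : List ℕ :=
  [59520, 54336, 45600, 28944, 36360, 19716, 11010, 5889, 33000, 16596, 8370, 4209, 2190, 1101, 555, 279]

/-- The sign of a pair. -/
def kap (u v : Fin 16) : ZMod 2 := if (kapL.getD u.1 0).testBit v.1 then 1 else 0

set_option maxRecDepth 100000 in
theorem kap_cocycle : ∀ y u : Fin 16, R y u → ∀ v, R y v → ∀ w, R y w →
    kap u v + kap v w = kap u w := by
  decide +kernel

theorem kap_self : ∀ u : Fin 16, kap u u = 0 := by decide

theorem card_nbr : ∀ v : Fin 16, 6 ≤ (Finset.univ.filter (fun s => R v s)).card := by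
  decide +kernel

end Pool.Agent.H206R3.Clebsch
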