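import Mathlib
import Pool.Agent.H463R4.FO.Defs
import Pool.Agent.H172.Form.Prime

set_option autoImplicit false

namespace Pool.Agent.H206R3.FO4

open Pool.Agent.H463R4.FO

variable {F : ∀ (G : Type) [Group G], Prop}

/-- Every minimal normal abelian subgroup of a member is central. -/
def CentralMin (F : ∀ (G : Type) [Group G], Prop) : Prop :=
  ∀ (G : Type) [Group G], F G → ∀ V : Subgroup G, V.Normal → ⁅V, V⁆ = ⊥ →
    (∀ U : Subgroup G, U.Normal → U ≤ V → U = ⊥ ∨ U = V) → V ≤ Subgroup.center G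

/-- helper172's structure from helper463's. -/
def toFormation (hF : IsFormation F) : Pool.Agent.H172.Form.Formation where
  mem := fun G _ => F G
  fin := fun G _ h => hF.fin G h
  iso := fun G H _ _ e h => hF.iso G H h e
  quot := fun G _ N _ h => hF.quot G N h
  inter := fun G _ _ N₁ N₂ _ _ h₁ h₂ => hF.inf G N₁ N₂ h₁ h₂

theorem toFormation_allSub (hF : IsFormation F) (hA : AllSubSn F) : (toFormation hF).AllSub := by
  intro H hH G _ hG N hN
  exact hA (fun G _ => H.mem G)
    ⟨fun G _ h => H.fin G h, fun G K _ _ h e => H.iso G K e h, fun G _ N _ h => H.quot G N h,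
      fun G _ _ N₁ N₂ _ _ h₁ h₂ => H.inter G N₁ N₂ h₁ h₂⟩ (fun G _ h => hH G h) G N hG

/-- A nontrivial normal subgroup of a finite group contains a minimal one. -/
theorem exists_min {G : Type} [Group G] [Finite G] (C : Subgroup G) (hC : C.Normal) (h : C ≠ ⊥) :
    ∃ V : Subgroup G, V.Normal ∧ V ≤ C ∧ V ≠ ⊥ ∧
      ∀ U : Subgroup G, U.Normal → U ≤ V → U = ⊥ ∨ U = V := by
  have hfin : {Y : Subgroup G | Y.Normal ∧ Y ≤ C ∧ Y ≠ ⊥}.Finite := Set.toFinite _
  obtain ⟨V, hV⟩ := hfin.exists_minimal ⟨C, hC, le_rfl, h⟩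
  refine ⟨V, hV.1.1, hV.1.2.1, hV.1.2.2, fun U hU hUV => ?_⟩
  by_cases hb : U = ⊥
  · exact Or.inl hb
  · exact Or.inr (le_antisymm hUV (hV.2 ⟨hU, hUV.trans hV.1.2.1, hb⟩ hUV))

theorem center_bot (hF : IsFormation F) (hcen : CentralMin F) {G : Type} [Group G] (hG : F G)
    (hc : Subgroup.center G = ⊥) (N : Subgroup G) [N.Normal] : Subgroup.center N = ⊥ := by
  have := hF.fin G hG
  by_contra h
  set C := (Subgroup.center N).map N.subtype with hCdef
  have hCn : C.Normal := ConjAct.normal_of_characteristic_of_normal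
  have hC0 : C ≠ ⊥ := by
    intro hb
    rw [hCdef, Subgroup.map_eq_bot_iff, Subgroup.ker_subtype, le_bot_iff] at hb
    exact h hb
  obtain ⟨V, hV, hVC, hV0, hmin⟩ := exists_min C hCn hC0
  have hab : ⁅V, V⁆ = ⊥ := by
    rw [eq_bot_iff]
    refine (Subgroup.commutator_mono hVC hVC).trans ?_
    rw [Subgroup.commutator_le]
    intro a ha b hb
    obtain ⟨a', ha', rfl⟩ := Subgroup.mem_map.1 ha
    obtain ⟨b', hb', rfl⟩ := Subgroup.mem_map.1 hb
    rw [Subgroup.mem_bot, commutatorElement_eq_one_iff_mul_comm, ← map_mul, ← map_mul]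
    exact congrArg _ ((Subgroup.mem_center_iff.1 ha') b').symm
  have := hcen G hG V hV hab hmin
  rw [hc, le_bot_iff] at this
  exact hV0 this

/-- Existence of a maximal proper normal subgroup. -/
theorem exists_max {G : Type} [Group G] [Finite G] (h : (⊤ : Subgroup G) ≠ ⊥) :
    ∃ M : Subgroup G, M.Normal ∧ M ≠ ⊤ ∧ ∀ U : Subgroup G, U.Normal → M ≤ U → U = M ∨ U = ⊤ := by
  have hfin : {Y : Subgroup G | Y.Normal ∧ Y ≠ ⊤}.Finite := Set.toFinite _
  obtain ⟨M, hM⟩ := hfin.exists_maximal ⟨⊥, inferInstance, fun h' => h h'.symm⟩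
  refine ⟨M, hM.1.1, hM.1.2, fun U hU hMU => ?_⟩
  by_cases ht : U = ⊤
  · exact Or.inr ht
  · exact Or.inl (le_antisymm (hM.2 ⟨hU, ht⟩ hMU) hMU)

theorem normPerfect_aux (hF : IsFormation F) (hA : AllSubSn F) (hcen : CentralMin F) :
    ∀ (n : ℕ) (G : Type) [Group G], F G → Nat.card G = n → Subgroup.center G = ⊥ →
      NormPerfect G := by
  intro n
  induction n using Nat.strong_induction_on with
  | _ n ih =>
  intro G _ hG hn hc
  have hfin := hF.fin G hG
  have proper : ∀ H : Subgroup G, H.Normal → H ≠ ⊤ → ⁅H, H⁆ = H := by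
    intro H hH hT
    have hHF : F H := hA F hF (fun _ _ h => h) G H hG
    have hlt : Nat.card H < Nat.card G := by
      refine lt_of_le_of_ne (Subgroup.card_le_card_group H) fun he => hT ?_
      exact Subgroup.eq_top_of_card_eq H he
    have h1 := ih (Nat.card H) (hn ▸ hlt) H hHF rfl (center_bot hF hcen hG hc H) ⊤ inferInstance
    have h2 := congrArg (Subgroup.map H.subtype) h1
    rw [Subgroup.map_commutator] at h2
    simpa [← MonoidHom.range_eq_map] using h2
  intro H hH
  by_cases hT : H = ⊤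
  swap
  · exact proper H hH hT
  subst hT
  by_contra hne
  set B : Subgroup G := ⁅(⊤ : Subgroup G), (⊤ : Subgroup G)⁆ with hB
  have hBn : B.Normal := inferInstance
  have hB0 : B ≠ ⊥ := by
    intro hb
    have this : (⊤ : Subgroup G) ≤ Subgroup.center G := by
      have h5 : (⊤ : Subgroup G) ≤ Subgroup.centralizer ((⊤ : Subgroup G) : Set G) :=
        Subgroup.commutator_eq_bot_iff_le_centralizer.1 hb
      rw [← Subgroup.centralizer_univ]
      rwa [Subgroup.coe_top] at h5
    rw [hc, top_le_iff] at this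
    apply hne
    rw [hb, this]
  have hBB := proper B hBn hne
  have htop : (⊤ : Subgroup B) ≠ ⊥ := by
    intro h
    apply hB0
    have := congrArg (Subgroup.map B.subtype) h
    simpa [← MonoidHom.range_eq_map] using this
  have hBperf : ⁅(⊤ : Subgroup B), (⊤ : Subgroup B)⁆ = (⊤ : Subgroup B) := by
    apply Subgroup.map_injective B.subtype_injective
    rw [Subgroup.map_commutator]
    simpa [← MonoidHom.range_eq_map] using hBB
  obtain ⟨M, hM, hMT, hmax⟩ := exists_max htop
  have hQperf : ⁅(⊤ : Subgroup (B ⧸ M)), (⊤ : Subgroup (B ⧸ M))⁆ = ⊤ := by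
    have h2 := congrArg (Subgroup.map (QuotientGroup.mk' M)) hBperf
    rw [Subgroup.map_commutator] at h2
    have h3 : (⊤ : Subgroup B).map (QuotientGroup.mk' M) = ⊤ :=
      Subgroup.map_top_of_surjective _ (QuotientGroup.mk'_surjective M)
    rwa [h3] at h2
  have hQ0 : (⊤ : Subgroup (B ⧸ M)) ≠ ⊥ := by
    intro h
    apply hMT
    rw [eq_top_iff]
    intro x _
    have : (QuotientGroup.mk' M x) ∈ (⊤ : Subgroup (B ⧸ M)) := Subgroup.mem_top _
    rw [h, Subgroup.mem_bot] at this
    exact (QuotientGroup.eq_one_iff x).1 this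
  have hsimple : ∀ A : Subgroup (B ⧸ M), A.Normal → A ≠ ⊥ → A = ⊤ := by
    intro A hA hA0
    have h1 : (A.comap (QuotientGroup.mk' M)).Normal := hA.comap _
    have h2 : M ≤ A.comap (QuotientGroup.mk' M) := by
      intro x hx
      rw [Subgroup.mem_comap]
      have : QuotientGroup.mk' M x = 1 := (QuotientGroup.eq_one_iff x).2 hx
      rw [this]; exact A.one_mem
    rcases hmax _ h1 h2 with h3 | h3
    · exfalso
      apply hA0
      rw [eq_bot_iff]
      intro a ha
      obtain ⟨x, rfl⟩ := QuotientGroup.mk'_surjective M a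
      have : x ∈ A.comap (QuotientGroup.mk' M) := ha
      rw [h3] at this
      exact Subgroup.mem_bot.2 ((QuotientGroup.eq_one_iff x).2 this)
    · rw [eq_top_iff]
      intro a _
      obtain ⟨x, rfl⟩ := QuotientGroup.mk'_surjective M a
      have : x ∈ A.comap (QuotientGroup.mk' M) := by rw [h3]; trivial
      exact this
  have hprime : Pool.Agent.H172.Form.IsPrimeGroup (B ⧸ M) := by
    intro A A' hA hA' h0 h0'
    rw [hsimple A hA h0, hsimple A' hA' h0', hQperf]
    exact hQ0
  obtain ⟨f, hf⟩ := Pool.Agent.H172.Form.prime_quotient (toFormation hF)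
    (toFormation_allSub hF hA) G hG B hBn (B ⧸ M) hprime
    ⟨QuotientGroup.mk' M, QuotientGroup.mk'_surjective M⟩
  have hW : f.ker ≠ ⊤ := by
    intro h
    apply hQ0
    rw [← Subgroup.map_top_of_surjective f hf, ← h]
    rw [Subgroup.map_eq_bot_iff]
  have hWp := proper f.ker inferInstance hW
  apply hne
  rw [eq_top_iff]
  have hWB : f.ker ≤ B := by
    have h6 : ⁅f.ker, f.ker⁆ ≤ ⁅(⊤ : Subgroup G), (⊤ : Subgroup G)⁆ :=
      Subgroup.commutator_mono le_top le_top
    exact le_trans (le_of_eq hWp.symm) h6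
  have hmap : B.map f = ⊤ := by
    have h7 : (⁅(⊤ : Subgroup G), (⊤ : Subgroup G)⁆).map f = ⊤ := by
      rw [Subgroup.map_commutator, Subgroup.map_top_of_surjective f hf, hQperf]
    exact h7
  intro x _
  have : f x ∈ B.map f := by rw [hmap]; trivial
  obtain ⟨b, hb, hbx⟩ := Subgroup.mem_map.1 this
  have h4 : x * b⁻¹ ∈ f.ker := by
    rw [MonoidHom.mem_ker, map_mul, map_inv, hbx, mul_inv_cancel]
  have := B.mul_mem (hWB h4) hb
  simpa using this

/-- Necessity of (1), from the centrality of minimal normal abelian subgroups. -/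
theorem nec (hF : IsFormation F) (hA : AllSubSn F) (hcen : CentralMin F) (G : Type) [Group G]
    (hG : F G) : ∃ n : ℕ, NormPerfect (G ⧸ Subgroup.upperCentralSeries G n) := by
  have hfin := hF.fin G hG
  obtain ⟨n, hn⟩ : ∃ n, Subgroup.upperCentralSeries G n = Subgroup.upperCentralSeries G (n + 1) := by
    by_contra h
    push Not at h
    have hmono : StrictMono (Subgroup.upperCentralSeries G) := by
      apply strictMono_nat_of_lt_succ
      intro n
      exact lt_of_le_of_ne (Subgroup.upperCentralSeries_mono G (Nat.le_succ n)) (h n)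
    exact not_injective_infinite_finite _ hmono.injective
  refine ⟨n, normPerfect_aux hF hA hcen _ _ (hF.quot G _ hG) rfl ?_⟩
  rw [eq_bot_iff]
  intro x hx
  obtain ⟨g, rfl⟩ := QuotientGroup.mk'_surjective _ x
  rw [Subgroup.mem_bot]
  refine (QuotientGroup.eq_one_iff g).2 ?_
  rw [hn, Subgroup.mem_upperCentralSeries_succ_iff]
  intro y
  have h1 := Subgroup.mem_center_iff.1 hx (QuotientGroup.mk' _ y)
  rw [← QuotientGroup.eq_one_iff]
  rw [← map_mul, ← map_mul] at h1
  have h2 : (QuotientGroup.mk' (Subgroup.upperCentralSeries G n)) (g * y * g⁻¹ * y⁻¹) = 1 := by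
    rw [map_mul, map_mul, ← h1, map_inv, map_inv, map_mul]
    group
  exact h2

end Pool.Agent.H206R3.FO4
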