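import Mathlib
import Pool.Agent.H206R3.FO4

set_option autoImplicit false

namespace Pool.Agent.H206R3.FO3

open Pool.Agent.H463R4.FO Pool.Agent.H206R3.FO4
open scoped commutatorElement

/-- No central section of order `p` between normal subgroups. -/
def NC (p : ℕ) (X : Type) [Group X] : Prop :=
  ∀ A B : Subgroup X, A.Normal → B.Normal → B ≤ A → ⁅A, (⊤ : Subgroup X)⁆ ≤ B → B.relIndex A ≠ p

theorem NC.surj {p : ℕ} {X Y : Type} [Group X] [Group Y] (h : NC p X) (f : X →* Y)
    (hf : Function.Surjective f) : NC p Y := by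
  intro A B hA hB hBA hc hr
  refine h (A.comap f) (B.comap f) (hA.comap f) (hB.comap f) (Subgroup.comap_mono hBA) ?_ ?_
  · rw [← Subgroup.map_le_iff_le_comap, Subgroup.map_commutator,
      Subgroup.map_comap_eq_self_of_surjective hf, Subgroup.map_top_of_surjective f hf]
    exact hc
  · rw [Subgroup.relIndex_comap, Subgroup.map_comap_eq_self_of_surjective hf]
    exact hr

theorem NC.quot' {p : ℕ} {G : Type} [Group G] {N : Subgroup G} [N.Normal] (h : NC p (G ⧸ N))
    (A B : Subgroup G) (hA : A.Normal) (hB : B.Normal) (hBA : B ≤ A) (hN : N ≤ B)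
    (hc : ⁅A, (⊤ : Subgroup G)⁆ ≤ B) : B.relIndex A ≠ p := by
  have hs := QuotientGroup.mk'_surjective N
  have e : B = (B.map (QuotientGroup.mk' N)).comap (QuotientGroup.mk' N) := by
    rw [Subgroup.comap_map_eq, QuotientGroup.ker_mk', sup_eq_left.2 hN]
  intro hr
  refine h (A.map (QuotientGroup.mk' N)) (B.map (QuotientGroup.mk' N))
    (Subgroup.Normal.map hA _ hs) (Subgroup.Normal.map hB _ hs) (Subgroup.map_mono hBA) ?_ ?_
  · have := Subgroup.map_mono (f := QuotientGroup.mk' N) hc
    rwa [Subgroup.map_commutator, Subgroup.map_top_of_surjective _ hs] at this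
  · rw [← Subgroup.relIndex_comap, ← e]
    exact hr

theorem comm_sup {G : Type} [Group G] {A B N : Subgroup G} [B.Normal] [N.Normal] [A.Normal]
    (hc : ⁅A, (⊤ : Subgroup G)⁆ ≤ B) : ⁅A ⊔ N, (⊤ : Subgroup G)⁆ ≤ B ⊔ N := by
  rw [Subgroup.commutator_le]
  intro a ha g _
  rw [Subgroup.mem_sup_of_normal_right] at ha
  obtain ⟨x, hx, y, hy, rfl⟩ := ha
  have h1 : ⁅x, g⁆ ∈ B := hc (Subgroup.commutator_mem_commutator hx (Subgroup.mem_top g))
  have e : ⁅x * y, g⁆ = ⁅x, g⁆ * (g * x * g⁻¹ * (y * (g * y⁻¹ * g⁻¹)) * (g * x * g⁻¹)⁻¹) := by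
    simp only [commutatorElement_def]
    group
  rw [e]
  refine Subgroup.mul_mem_sup h1 ?_
  refine Subgroup.Normal.conj_mem inferInstance _ ?_ _
  exact N.mul_mem hy (Subgroup.Normal.conj_mem inferInstance _ (N.inv_mem hy) _)

theorem relIndex_sup' {G : Type} [Group G] {A B N : Subgroup G} [A.Normal] [B.Normal] [N.Normal]
    (hBA : B ≤ A) (h : A ⊓ N ≤ B) : (B ⊔ N).relIndex (A ⊔ N) = B.relIndex A := by
  have e1 : A ⊔ N = A ⊔ (B ⊔ N) := by
    rw [← sup_assoc, sup_eq_left.2 hBA]
  have e2 : (B ⊔ N) ⊓ A = B := by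
    refine le_antisymm ?_ (le_inf le_sup_left hBA)
    rintro x ⟨hx, hxA⟩
    have hx' : x ∈ B ⊔ N := hx
    rw [Subgroup.mem_sup_of_normal_right] at hx'
    obtain ⟨b, hb, m, hm, rfl⟩ := hx'
    have : m ∈ A ⊓ N := ⟨by
      have := A.mul_mem (A.inv_mem (hBA hb)) hxA
      simpa using this, hm⟩
    exact B.mul_mem hb (h this)
  rw [e1, Subgroup.relIndex_sup_right, ← Subgroup.inf_relIndex_right, e2]

/-- The subformation of members without central section of order `p`. -/
theorem isFormation_NC {F : ∀ (G : Type) [Group G], Prop} (hF : IsFormation F) (p : ℕ)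
    (hp : p.Prime) : IsFormation (fun X _ => F X ∧ NC p X) where
  fin G _ h := hF.fin G h.1
  iso G H _ _ h e := ⟨hF.iso G H h.1 e, h.2.surj e.toMonoidHom e.surjective⟩
  quot G _ N _ h := ⟨hF.quot G N h.1, h.2.surj (QuotientGroup.mk' N) (QuotientGroup.mk'_surjective N)⟩
  inf G _ _ N₁ N₂ _ _ h₁ h₂ := by
    refine ⟨hF.inf G N₁ N₂ h₁.1 h₂.1, ?_⟩
    intro A' B' hA' hB' hBA' hc' hr'
    have hs := QuotientGroup.mk'_surjective (N₁ ⊓ N₂)
    set A := A'.comap (QuotientGroup.mk' (N₁ ⊓ N₂)) with hAdef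
    set B := B'.comap (QuotientGroup.mk' (N₁ ⊓ N₂)) with hBdef
    have hA : A.Normal := hA'.comap _
    have hB : B.Normal := hB'.comap _
    have hBA : B ≤ A := Subgroup.comap_mono hBA'
    have hNB : N₁ ⊓ N₂ ≤ B := by
      intro x hx
      rw [hBdef, Subgroup.mem_comap]
      have : QuotientGroup.mk' (N₁ ⊓ N₂) x = 1 := (QuotientGroup.eq_one_iff x).2 hx
      rw [this]; exact B'.one_mem
    have hc : ⁅A, (⊤ : Subgroup G)⁆ ≤ B := by
      rw [hBdef, ← Subgroup.map_le_iff_le_comap, Subgroup.map_commutator, hAdef,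
        Subgroup.map_comap_eq_self_of_surjective hs, Subgroup.map_top_of_surjective _ hs]
      exact hc'
    have hr : B.relIndex A = p := by
      rw [hBdef, hAdef, Subgroup.relIndex_comap, Subgroup.map_comap_eq_self_of_surjective hs]
      exact hr'
    by_cases h : A ⊓ N₁ ≤ B
    · refine h₁.2.quot' (A ⊔ N₁) (B ⊔ N₁) inferInstance inferInstance (sup_le_sup_right hBA _)
        le_sup_right (comm_sup hc) ?_
      rw [relIndex_sup' hBA h, hr]
    · -- `A = B ⊔ (A ⊓ N₁)`
      have hA2 : (A ⊓ N₁).Normal := inferInstance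
      have hle : B ⊔ (A ⊓ N₁) ≤ A := sup_le hBA inf_le_left
      have hprod := Subgroup.relIndex_mul_relIndex B (B ⊔ (A ⊓ N₁)) A le_sup_left hle
      rw [hr] at hprod
      have h1 : B.relIndex (B ⊔ (A ⊓ N₁)) = p := by
        rcases (Nat.dvd_prime hp).1 (Dvd.intro _ hprod) with h1 | h1
        · exfalso
          apply h
          rw [Subgroup.relIndex_eq_one] at h1
          exact le_sup_right.trans h1
        · exact h1
      rw [Subgroup.relIndex_sup_left] at h1
      have h2 : (B ⊓ N₁).relIndex (A ⊓ N₁) = p := by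
        rw [← h1, ← Subgroup.inf_relIndex_right, ← Subgroup.inf_relIndex_right B]
        congr 1
        ext x
        simp only [Subgroup.mem_inf]
        constructor
        · rintro ⟨⟨a, b⟩, c, d⟩; exact ⟨a, c, d⟩
        · rintro ⟨a, c, d⟩; exact ⟨⟨a, d⟩, c, d⟩
      have h3 : (A ⊓ N₁) ⊓ N₂ ≤ B ⊓ N₁ := by
        rintro x ⟨⟨_, b⟩, c⟩
        exact ⟨hNB ⟨b, c⟩, b⟩
      have hc2 : ⁅A ⊓ N₁, (⊤ : Subgroup G)⁆ ≤ B ⊓ N₁ := by
        refine le_inf ((Subgroup.commutator_mono inf_le_left le_rfl).trans hc) ?_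
        exact (Subgroup.commutator_mono inf_le_right le_rfl).trans (Subgroup.commutator_le_left _ _)
      have hBA2 : B ⊓ N₁ ≤ A ⊓ N₁ := inf_le_inf_right _ hBA
      refine h₂.2.quot' ((A ⊓ N₁) ⊔ N₂) ((B ⊓ N₁) ⊔ N₂) inferInstance inferInstance
        (sup_le_sup_right hBA2 _) le_sup_right (comm_sup hc2) ?_
      rw [relIndex_sup' hBA2 h3, h2]

/-- The pairs of elements congruent modulo `V`. -/
def D {G : Type} [Group G] (V : Subgroup G) [V.Normal] : Subgroup (G × G) where
  carrier := {q | q.1 * q.2⁻¹ ∈ V}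
  mul_mem' := by
    rintro ⟨a, b⟩ ⟨c, d⟩ h1 h2
    simp only [Set.mem_ofPred_eq, Prod.mk_mul_mk] at *
    have h3 : a * (c * d⁻¹) * a⁻¹ ∈ V := Subgroup.Normal.conj_mem inferInstance _ h2 _
    have := V.mul_mem h3 h1
    convert this using 1
    group
  one_mem' := by simp
  inv_mem' := by
    rintro ⟨a, b⟩ h1
    simp only [Set.mem_ofPred_eq, Prod.inv_mk] at *
    have h3 : b⁻¹ * (a * b⁻¹)⁻¹ * b⁻¹⁻¹ ∈ V :=
      Subgroup.Normal.conj_mem inferInstance _ (V.inv_mem h1) _
    convert h3 using 1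
    group

theorem mem_D {G : Type} [Group G] (V : Subgroup G) [V.Normal] (q : G × G) :
    q ∈ D V ↔ q.1 * q.2⁻¹ ∈ V := Iff.rfl

/-- The diagonal copy of `C_G(V)`. -/
def K {G : Type} [Group G] (V : Subgroup G) [V.Normal] : Subgroup (D V) where
  carrier := {d | d.1.1 = d.1.2 ∧ d.1.1 ∈ Subgroup.centralizer (V : Set G)}
  mul_mem' := by
    rintro ⟨⟨a, b⟩, h⟩ ⟨⟨c, d⟩, h'⟩ ⟨h1, h2⟩ ⟨h3, h4⟩
    simp only at h1 h2 h3 h4
    subst h1 h3
    exact ⟨rfl, Subgroup.mul_mem _ h2 h4⟩
  one_mem' := ⟨rfl, Subgroup.one_mem _⟩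
  inv_mem' := by
    rintro ⟨⟨a, b⟩, h⟩ ⟨h1, h2⟩
    simp only at h1 h2
    subst h1
    exact ⟨rfl, Subgroup.inv_mem _ h2⟩

theorem mem_K {G : Type} [Group G] (V : Subgroup G) [V.Normal] (d : D V) :
    d ∈ K V ↔ d.1.1 = d.1.2 ∧ d.1.1 ∈ Subgroup.centralizer (V : Set G) := Iff.rfl

instance K_normal {G : Type} [Group G] (V : Subgroup G) [hV : V.Normal] : (K V).Normal := by
  constructor
  rintro ⟨⟨c, c'⟩, hc⟩ ⟨h1, h2⟩ ⟨⟨x, y⟩, hxy⟩
  simp only at h1 h2
  subst h1
  have hC : (Subgroup.centralizer (V : Set G)).Normal := inferInstance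
  have h3 : y * c * y⁻¹ ∈ Subgroup.centralizer (V : Set G) := hC.conj_mem _ h2 _
  have h4 : x * y⁻¹ ∈ V := hxy
  have h5 := Subgroup.mem_centralizer_iff.1 h3 _ h4
  have h6 : x * c * x⁻¹ = y * c * y⁻¹ := by
    have : x * y⁻¹ * (y * c * y⁻¹) * (x * y⁻¹)⁻¹ = y * c * y⁻¹ := by
      rw [h5]; group
    rw [← this]; group
  refine ⟨h6, ?_⟩
  change x * c * x⁻¹ ∈ _
  rw [h6]; exact h3

theorem D_mem {F : ∀ (G : Type) [Group G], Prop} (hF : IsFormation F) {G : Type} [Group G]
    (V : Subgroup G) [V.Normal] (hG : F G) : F (D V) := by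
  refine hF.two hG hG ((MonoidHom.fst G G).comp (D V).subtype)
    ((MonoidHom.snd G G).comp (D V).subtype) ?_ ?_ ?_
  · intro g
    exact ⟨⟨(g, g), by rw [mem_D]; simp⟩, rfl⟩
  · intro g
    exact ⟨⟨(g, g), by rw [mem_D]; simp⟩, rfl⟩
  · rintro ⟨⟨a, b⟩, h⟩ h1 h2
    simp only [MonoidHom.comp_apply, Subgroup.subtype_apply, MonoidHom.coe_fst,
      MonoidHom.coe_snd] at h1 h2
    subst h1 h2
    rfl

theorem card_D {G : Type} [Group G] [Finite G] (V : Subgroup G) [V.Normal] :
    Nat.card (D V) = Nat.card V * Nat.card G := by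
  rw [← Nat.card_prod]
  refine Nat.card_congr ⟨fun d => (⟨d.1.1 * d.1.2⁻¹, d.2⟩, d.1.2),
    fun e => ⟨(e.1.1 * e.2, e.2), by rw [mem_D]; simp⟩, ?_, ?_⟩
  · rintro ⟨⟨a, b⟩, h⟩
    simp
  · rintro ⟨⟨v, hv⟩, g⟩
    simp

theorem card_K {G : Type} [Group G] [Finite G] (V : Subgroup G) [V.Normal] :
    Nat.card (K V) = Nat.card (Subgroup.centralizer (V : Set G)) := by
  refine Nat.card_congr ⟨fun d => ⟨d.1.1.1, d.2.2⟩,
    fun c => ⟨⟨(c.1, c.1), by rw [mem_D]; simp⟩, ⟨rfl, c.2⟩⟩, ?_, ?_⟩
  · rintro ⟨⟨⟨a, b⟩, h⟩, h1, h2⟩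
    simp only at h1
    subst h1
    rfl
  · rintro ⟨c, hc⟩
    rfl

/-- The embedding of `V` in the quotient. -/
def inc {G : Type} [Group G] (V : Subgroup G) [V.Normal] : V →* (D V) ⧸ (K V) :=
  (QuotientGroup.mk' (K V)).comp
    { toFun := fun v => ⟨(v.1, 1), by rw [mem_D]; simp⟩
      map_one' := rfl
      map_mul' := by
        intro a b
        apply Subtype.ext
        simp }

theorem inc_eq_one {G : Type} [Group G] (V : Subgroup G) [V.Normal] (v : V) (h : inc V v = 1) :
    v = 1 := by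
  have h1 : (⟨(v.1, 1), by rw [mem_D]; simp⟩ : D V) ∈ K V := (QuotientGroup.eq_one_iff _).1 h
  exact Subtype.ext h1.1

/-- conjugation of `inc v` -/
theorem conj_inc {G : Type} [Group G] (V : Subgroup G) [hV : V.Normal] (v : V) (d : D V) :
    (QuotientGroup.mk' (K V) d) * inc V v * (QuotientGroup.mk' (K V) d)⁻¹
      = inc V ⟨d.1.1 * v.1 * d.1.1⁻¹, hV.conj_mem _ v.2 _⟩ := by
  unfold inc
  rw [MonoidHom.comp_apply, MonoidHom.comp_apply, ← map_inv, ← map_mul, ← map_mul]
  congr 1
  apply Subtype.ext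
  refine Prod.ext ?_ ?_
  · rfl
  · change d.1.2 * 1 * d.1.2⁻¹ = 1
    rw [mul_one, mul_inv_cancel]

theorem centralMin {F : ∀ (G : Type) [Group G], Prop} (hF : IsFormation F) (hA : AllSubSn F) :
    CentralMin F := by
  suffices h : ∀ (n : ℕ) (G : Type) [Group G], F G → Nat.card G = n → ∀ V : Subgroup G, V.Normal →
      ⁅V, V⁆ = ⊥ → (∀ U : Subgroup G, U.Normal → U ≤ V → U = ⊥ ∨ U = V) →
      V ≤ Subgroup.center G from fun G _ hG V hV hab hmin => h _ G hG rfl V hV hab hmin
  intro n
  induction n using Nat.strong_induction_on with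
  | _ n ih =>
  intro G _ hG hn V hV hab hmin
  have hfin := hF.fin G hG
  by_contra hnc
  have hcomm : ∀ a ∈ V, ∀ b ∈ V, a * b = b * a := by
    intro a ha b hb
    have : ⁅a, b⁆ ∈ ⁅V, V⁆ := Subgroup.commutator_mem_commutator ha hb
    rw [hab, Subgroup.mem_bot, commutatorElement_eq_one_iff_mul_comm] at this
    exact this
  have hV0 : V ≠ ⊥ := by
    rintro rfl
    exact hnc bot_le
  set C := Subgroup.centralizer (V : Set G) with hC
  have hVC : V ≤ C := by
    intro a ha
    rw [hC, Subgroup.mem_centralizer_iff]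
    intro b hb
    exact hcomm b hb a ha
  have hCn : C.Normal := inferInstance
  -- Step 1: `C = V`
  have hCV : C = V := by
    by_contra hne
    have hlt : Nat.card V < Nat.card C := by
      refine lt_of_le_of_ne (Subgroup.card_le_of_le hVC) fun he => hne ?_
      exact (Subgroup.eq_of_le_of_card_ge hVC he.ge).symm
    have hE : F (D V ⧸ K V) := hF.quot _ _ (D_mem hF V hG)
    have hcard : Nat.card (D V ⧸ K V) < n := by
      have h1 := Subgroup.card_eq_card_quotient_mul_card_subgroup (K V)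
      rw [card_D, card_K, ← hC, hn] at h1
      by_contra hge
      push Not at hge
      have hnpos : 0 < n := hn ▸ Nat.card_pos
      have : Nat.card V * n < Nat.card (D V ⧸ K V) * Nat.card C :=
        calc Nat.card V * n < Nat.card C * n := Nat.mul_lt_mul_of_pos_right hlt hnpos
          _ ≤ Nat.card (D V ⧸ K V) * Nat.card C := by
              rw [mul_comm]; exact Nat.mul_le_mul_right _ hge
      omega
    have hrn : (inc V).range.Normal := by
      constructor
      rintro _ ⟨v, rfl⟩ g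
      obtain ⟨d, rfl⟩ := QuotientGroup.mk'_surjective (K V) g
      rw [conj_inc]
      exact ⟨_, rfl⟩
    have hrc : ⁅(inc V).range, (inc V).range⁆ = ⊥ := by
      rw [eq_bot_iff, Subgroup.commutator_le]
      rintro _ ⟨v, rfl⟩ _ ⟨w, rfl⟩
      rw [Subgroup.mem_bot, commutatorElement_eq_one_iff_mul_comm, ← map_mul, ← map_mul]
      congr 1
      exact Subtype.ext (hcomm v.1 v.2 w.1 w.2)
    have hcen := ih _ hcard _ hE rfl (inc V).range hrn hrc (by
      intro U hU hUr
      set U₀ : Subgroup G := (U.comap (inc V)).map V.subtype with hU₀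
      have hU₀n : U₀.Normal := by
        constructor
        rintro _ ⟨v, hv, rfl⟩ g
        refine ⟨⟨g * v.1 * g⁻¹, hV.conj_mem _ v.2 _⟩, ?_, rfl⟩
        have h1 := conj_inc V v ⟨(g, g), by rw [mem_D]; simp⟩
        change inc V ⟨g * v.1 * g⁻¹, _⟩ ∈ U
        rw [← h1]
        exact hU.conj_mem _ hv _
      have hU₀V : U₀ ≤ V := by
        rintro _ ⟨v, _, rfl⟩
        exact v.2
      rcases hmin U₀ hU₀n hU₀V with h1 | h1
      · left
        rw [eq_bot_iff]
        intro u hu
        obtain ⟨v, rfl⟩ := hUr hu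
        have : V.subtype v ∈ U₀ := ⟨v, hu, rfl⟩
        rw [h1, Subgroup.mem_bot] at this
        have h2 : v = 1 := Subtype.ext this
        rw [h2, map_one]; exact Subgroup.one_mem _
      · right
        refine le_antisymm hUr ?_
        rintro _ ⟨v, rfl⟩
        have : v.1 ∈ U₀ := by rw [h1]; exact v.2
        obtain ⟨w, hw, hwv⟩ := this
        have : w = v := Subtype.ext hwv
        rw [← this]; exact hw)
    apply hnc
    intro v hv
    rw [Subgroup.mem_center_iff]
    intro g
    have h1 := Subgroup.mem_center_iff.1 (hcen ⟨⟨v, hv⟩, rfl⟩)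
      (QuotientGroup.mk' (K V) ⟨(g, g), by rw [mem_D]; simp⟩)
    have h2 := conj_inc V ⟨v, hv⟩ ⟨(g, g), by rw [mem_D]; simp⟩
    rw [h1, mul_inv_cancel_right] at h2
    have h3 : inc V (⟨g * v * g⁻¹, hV.conj_mem _ hv _⟩ * (⟨v, hv⟩ : V)⁻¹) = 1 := by
      rw [map_mul, map_inv, ← h2, mul_inv_cancel]
    have h4 := congrArg Subtype.val (inc_eq_one V _ h3)
    simp only [Subgroup.coe_mul, Subgroup.coe_inv, Subgroup.coe_one] at h4
    have h5 : g * v * g⁻¹ = v := mul_inv_eq_one.1 h4
    rw [mul_inv_eq_iff_eq_mul] at h5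
    exact h5
  -- Step 2: nothing normal strictly between `V` and `G`
  have hbetween : ∀ L : Subgroup G, L.Normal → V ≤ L → L = V ∨ L = ⊤ := by
    intro L hL hVL
    by_contra hcon
    push Not at hcon
    obtain ⟨hLV, hLT⟩ := hcon
    have hLF : F L := hA F hF (fun _ _ h => h) G L hG
    have hlt : Nat.card L < n := by
      rw [← hn]
      refine lt_of_le_of_ne (Subgroup.card_le_card_group L) fun he => hLT ?_
      exact Subgroup.eq_top_of_card_eq L he
    have hVL0 : V.subgroupOf L ≠ ⊥ := by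
      intro h
      rw [Subgroup.subgroupOf_eq_bot] at h
      apply hV0
      rw [eq_bot_iff]
      intro x hx
      exact h.le_bot ⟨hx, hVL hx⟩
    obtain ⟨U, hU, hUV, hU0, hUmin⟩ := exists_min (V.subgroupOf L) inferInstance hVL0
    have hUc : ⁅U, U⁆ = ⊥ := by
      rw [eq_bot_iff, Subgroup.commutator_le]
      intro a ha b hb
      rw [Subgroup.mem_bot, commutatorElement_eq_one_iff_mul_comm]
      exact Subtype.ext (hcomm a.1 (hUV ha) b.1 (hUV hb))
    have hUcen := ih _ hlt L hLF rfl U hU hUc hUmin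
    obtain ⟨u', hu'⟩ := (Subgroup.ne_bot_iff_exists_ne_one).1 hU0
    obtain ⟨u, hu⟩ := u'
    have hu1 : u ≠ 1 := fun h => hu' (Subtype.ext h)
    have hKn : (V ⊓ Subgroup.centralizer (L : Set G)).Normal := inferInstance
    rcases hmin _ hKn inf_le_left with h1 | h1
    · have : (u : L).1 ∈ V ⊓ Subgroup.centralizer (L : Set G) := by
        refine Subgroup.mem_inf.2 ⟨hUV hu, ?_⟩
        rw [Subgroup.mem_centralizer_iff]
        intro l hl
        have := Subgroup.mem_center_iff.1 (hUcen hu) ⟨l, hl⟩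
        exact congrArg Subtype.val this
      rw [h1, Subgroup.mem_bot] at this
      apply hu1
      exact Subtype.ext this
    · apply hLV
      refine le_antisymm ?_ hVL
      rw [← hCV, hC]
      intro l hl
      rw [Subgroup.mem_centralizer_iff]
      intro v hv
      have : v ∈ V ⊓ Subgroup.centralizer (L : Set G) := by rw [h1]; exact hv
      exact (Subgroup.mem_centralizer_iff.1 this.2 l hl).symm
  -- all normal subgroups
  have hall : ∀ N : Subgroup G, N.Normal → N = ⊥ ∨ N = V ∨ N = ⊤ := by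
    intro N hN
    have hNn : (N ⊓ V).Normal := inferInstance
    rcases hmin (N ⊓ V) hNn inf_le_right with h1 | h1
    · left
      have : N ≤ C := by
        rw [hC]
        intro x hx
        rw [Subgroup.mem_centralizer_iff]
        intro v hv
        have h2 : v * x * v⁻¹ * x⁻¹ ∈ N ⊓ V := by
          refine ⟨N.mul_mem (hN.conj_mem _ hx _) (N.inv_mem hx), ?_⟩
          have : v * (x * v⁻¹ * x⁻¹) ∈ V := V.mul_mem hv (hV.conj_mem _ (V.inv_mem hv) _)
          have e : v * x * v⁻¹ * x⁻¹ = v * (x * v⁻¹ * x⁻¹) := by group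
          rw [e]; exact this
        rw [h1, Subgroup.mem_bot] at h2
        have h3 : v * x * v⁻¹ = x := mul_inv_eq_one.1 h2
        rwa [mul_inv_eq_iff_eq_mul] at h3
      rw [hCV] at this
      rw [← h1, inf_eq_left.2 this]
    · right
      exact hbetween N hN (inf_eq_right.1 h1)
  have hnotcen : ¬ ⁅V, (⊤ : Subgroup G)⁆ ≤ ⊥ := by
    intro h
    apply hnc
    intro v hv
    rw [Subgroup.mem_center_iff]
    intro g
    have : ⁅v, g⁆ ∈ (⊥ : Subgroup G) :=
      h (Subgroup.commutator_mem_commutator hv (Subgroup.mem_top g))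
    rw [Subgroup.mem_bot, commutatorElement_eq_one_iff_mul_comm] at this
    exact this.symm
  -- a prime dividing `|V|`
  have hVcard : Nat.card V ≠ 1 := by
    intro h
    exact hV0 (Subgroup.card_eq_one.1 h)
  obtain ⟨p, hp, hpV⟩ := Nat.exists_prime_and_dvd hVcard
  have : Fact p.Prime := ⟨hp⟩
  -- `G` has no central section of order `p`
  have hNC : NC p G := by
    intro A B hAn hBn hBA hc hr
    have hbot : ¬ ⁅V, (⊤ : Subgroup G)⁆ ≤ ⊥ := hnotcen
    rcases hall A hAn with rfl | rfl | rfl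
    · have : B = ⊥ := le_bot_iff.1 hBA
      rw [this, Subgroup.relIndex_self] at hr
      exact hp.one_lt.ne hr
    · rcases hall B hBn with rfl | h2 | rfl
      · exact hbot hc
      · rw [h2, Subgroup.relIndex_self] at hr
        exact hp.one_lt.ne hr
      · apply hbot
        exfalso
        have hT : A = ⊤ := top_le_iff.1 hBA
        rw [hT, Subgroup.relIndex_self] at hr
        exact hp.one_lt.ne hr
    · rcases hall B hBn with rfl | h2 | rfl
      · exact hbot ((Subgroup.commutator_mono le_top le_rfl).trans hc)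
      · -- `|G : V| = p`
        subst h2
        rw [Subgroup.relIndex_top_right] at hr
        have hBT : B ≠ ⊤ := by
          rintro rfl
          rw [Subgroup.index_top] at hr
          exact hp.one_lt.ne hr
        obtain ⟨g, hg⟩ : ∃ g, g ∉ B := by
          by_contra h
          push Not at h
          exact hBT (Subgroup.eq_top_iff' _ |>.2 h)
        set φ : MulAut B := MulAut.conjNormal g with hφ
        have hφp : φ ^ p = 1 := by
          rw [hφ, ← map_pow]
          ext b
          rw [MulAut.conjNormal_apply]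
          have h1 : g ^ p ∈ B := by rw [← hr]; exact Subgroup.pow_index_mem B g
          rw [hcomm _ h1 _ b.2]
          simp
        have hPG : IsPGroup p (Subgroup.zpowers φ) := by
          rintro ⟨ψ, m, rfl⟩
          refine ⟨1, Subtype.ext ?_⟩
          simp only [pow_one, Subgroup.coe_pow, Subgroup.coe_one]
          rw [← zpow_natCast, ← zpow_mul, mul_comm, zpow_mul, zpow_natCast, hφp, one_zpow]
        have hone : (1 : B) ∈ MulAction.fixedPoints (Subgroup.zpowers φ) B := by
          intro ψ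
          exact map_one ψ.1
        obtain ⟨b, hb, hb1⟩ := hPG.exists_fixed_point_of_prime_dvd_card_of_fixed_point B hpV hone
        have hbφ : φ b = b := hb ⟨φ, Subgroup.mem_zpowers φ⟩
        have hgb : g * b.1 * g⁻¹ = b.1 := by
          have := congrArg Subtype.val hbφ
          rwa [hφ, MulAut.conjNormal_apply] at this
        have hBZ : B ≤ Subgroup.centralizer ({b.1} : Set G) := by
          intro x hx
          rw [Subgroup.mem_centralizer_singleton_iff]
          exact hcomm _ hx _ b.2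
        have hgZ : g ∈ Subgroup.centralizer ({b.1} : Set G) := by
          rw [Subgroup.mem_centralizer_singleton_iff]
          rwa [mul_inv_eq_iff_eq_mul] at hgb
        have hZT : Subgroup.centralizer ({b.1} : Set G) = ⊤ := by
          have h1 := Subgroup.relIndex_mul_index hBZ
          rw [hr] at h1
          rcases (Nat.dvd_prime hp).1 (Dvd.intro _ h1) with h2 | h2
          · exfalso
            rw [Subgroup.relIndex_eq_one] at h2
            exact hg (h2 hgZ)
          · rw [h2] at h1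
            rw [← Subgroup.index_eq_one]
            exact Nat.eq_of_mul_eq_mul_left hp.pos (by rw [h1, mul_one])
        have hbc : b.1 ∈ Subgroup.center G := by
          rw [Subgroup.mem_center_iff]
          intro x
          have : x ∈ Subgroup.centralizer ({b.1} : Set G) := by rw [hZT]; trivial
          exact Subgroup.mem_centralizer_singleton_iff.1 this
        have hn2 : (B ⊓ Subgroup.center G).Normal := inferInstance
        rcases hmin _ hn2 inf_le_left with h1 | h1
        · apply hb1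
          have : b.1 ∈ B ⊓ Subgroup.center G := ⟨b.2, hbc⟩
          rw [h1, Subgroup.mem_bot] at this
          exact (Subtype.ext this).symm
        · exact hnc (inf_eq_left.1 h1)
      · rw [Subgroup.relIndex_self] at hr
        exact hp.one_lt.ne hr
  -- but `V` has
  have hsub := hA (fun X _ => F X ∧ NC p X) (isFormation_NC hF p hp) (fun X _ h => h.1) G V
    ⟨hG, hNC⟩
  obtain ⟨x, hx⟩ := exists_prime_orderOf_dvd_card' (G := V) p hpV
  have hVc : ∀ a b : V, a * b = b * a := fun a b => Subtype.ext (hcomm a.1 a.2 b.1 b.2)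
  refine hsub.2 (Subgroup.zpowers x) ⊥ ?_ inferInstance bot_le ?_ ?_
  · constructor
    intro y hy z
    rw [hVc z y, mul_inv_cancel_right]
    exact hy
  · rw [Subgroup.commutator_le]
    intro a _ b _
    rw [Subgroup.mem_bot, commutatorElement_eq_one_iff_mul_comm]
    exact hVc a b
  · rw [Subgroup.relIndex_bot_left, Nat.card_zpowers, hx]

end Pool.Agent.H206R3.FO3
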