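import Mathlib

set_option autoImplicit false

namespace Pool.Agent.H206R3.NB

open Finset

/-- The coefficients. -/
noncomputable def c (m : ℕ) (t : ℝ) (j : ℕ) : ℝ :=
  t ^ j - t ^ (2 * m + 2 - j) - ((m + 1 - j : ℕ) : ℝ) * t ^ m * (1 - t ^ 2)

noncomputable def C0 (m : ℕ) (t : ℝ) : ℝ :=
  (m + 2) * t ^ m * (1 - t ^ 2) / 2 - t ^ (m + 1) * (1 - t ^ (m + 2))

noncomputable def H (m : ℕ) (t : ℝ) (z : ℂ) : ℂ :=
  (C0 m t : ℂ) - ∑ j ∈ range (m + 1), (c m t j : ℂ) * z ^ (j + 1)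
    + (1 - (t : ℂ) ^ (m + 2)) ^ 2 * (z / (1 - t * z))

lemma fejer (m : ℕ) (z w : ℂ) (h : z * w = 1) :
    ((m : ℂ) + 2) + ∑ j ∈ range (m + 1), ((m + 1 - j : ℕ) : ℂ) * z ^ (j + 1)
      + ∑ j ∈ range (m + 1), ((m + 1 - j : ℕ) : ℂ) * w ^ (j + 1)
      = (∑ k ∈ range (m + 2), z ^ k) * ∑ k ∈ range (m + 2), w ^ k := by
  have step : ∀ (m : ℕ) (x : ℂ), ∑ j ∈ range (m + 1 + 1), ((m + 1 + 1 - j : ℕ) : ℂ) * x ^ (j + 1)
      = ∑ j ∈ range (m + 1), ((m + 1 - j : ℕ) : ℂ) * x ^ (j + 1)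
        + ∑ j ∈ range (m + 2), x ^ (j + 1) := by
    intro m x
    rw [sum_range_succ _ (m + 1), sum_range_succ (fun j => x ^ (j + 1)) (m + 1), ← add_assoc,
      ← sum_add_distrib]
    congr 1
    · refine sum_congr rfl fun j hj => ?_
      have : j ≤ m := by have := mem_range.1 hj; omega
      have e : (m + 1 + 1 - j : ℕ) = (m + 1 - j) + 1 := by omega
      rw [e]; push_cast; ring
    · have e : (m + 1 + 1 - (m + 1) : ℕ) = 1 := by omega
      rw [e]; push_cast; ring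
  induction m with
  | zero =>
    simp [sum_range_succ]
    linear_combination (-1 : ℂ) * h
  | succ m ih =>
    rw [step m z, step m w]
    have e1 : ∀ x y : ℂ, x * y = 1 → y ^ (m + 2) * ∑ k ∈ range (m + 2), x ^ k
        = ∑ j ∈ range (m + 2), y ^ (j + 1) := by
      intro x y hxy
      rw [← sum_range_reflect, mul_sum]
      refine sum_congr rfl fun j hj => ?_
      have hj' : j < m + 2 := mem_range.1 hj
      have e2 : m + 2 = (j + 1) + (m + 2 - 1 - j) := by omega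
      calc y ^ (m + 2) * x ^ (m + 2 - 1 - j) = y ^ ((j + 1) + (m + 2 - 1 - j)) * x ^ (m + 2 - 1 - j) := by
            rw [← e2]
        _ = y ^ (j + 1) * (x * y) ^ (m + 2 - 1 - j) := by rw [pow_add, mul_pow]; ring
        _ = y ^ (j + 1) := by rw [hxy, one_pow, mul_one]
    have h' : w * z = 1 := by rw [mul_comm]; exact h
    rw [sum_range_succ (fun k => z ^ k) (m + 2), sum_range_succ (fun k => w ^ k) (m + 2)]
    have e3 : z ^ (m + 2) * w ^ (m + 2) = 1 := by rw [← mul_pow, h, one_pow]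
    have e4 := e1 z w h
    have e5 := e1 w z h'
    push_cast
    linear_combination ih - e4 - e5 - e3

lemma S1_mul (m : ℕ) (t z : ℂ) :
    (∑ j ∈ range (m + 1), t ^ j * z ^ (j + 1)) * (1 - t * z) = z - t ^ (m + 1) * z ^ (m + 2) := by
  have h := sum_range_sub' (fun j => t ^ j * z ^ (j + 1)) (m + 1)
  simp only [pow_zero, zero_add, pow_one, one_mul] at h
  rw [← h, sum_mul]
  refine sum_congr rfl fun j _ => ?_
  ring

lemma S2_mul (m : ℕ) (t z w : ℂ) (h : z * w = 1) :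
    (∑ j ∈ range (m + 1), t ^ (2 * m + 2 - j) * z ^ (j + 1)) * (1 - t * w)
      = t ^ (m + 2) * z ^ (m + 1) - t ^ (2 * m + 3) := by
  have h1 := sum_range_sub (fun j => t ^ (2 * m + 3 - j) * z ^ j) (m + 1)
  have e0 : 2 * m + 3 - (m + 1) = m + 2 := by omega
  simp only [e0, Nat.sub_zero, pow_zero, mul_one] at h1
  rw [← h1, sum_mul]
  refine sum_congr rfl fun j hj => ?_
  have : j ≤ m := by have := mem_range.1 hj; omega
  have e1 : 2 * m + 3 - (j + 1) = 2 * m + 2 - j := by omega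
  have e2 : 2 * m + 3 - j = (2 * m + 2 - j) + 1 := by omega
  rw [e1, e2, pow_succ t, pow_succ z]
  linear_combination (-(t ^ (2 * m + 2 - j) * t * z ^ j)) * h

lemma H_eq (m : ℕ) (t : ℝ) (z : ℂ) :
    H m t z = (C0 m t : ℂ) - (∑ j ∈ range (m + 1), (t : ℂ) ^ j * z ^ (j + 1))
      + (∑ j ∈ range (m + 1), (t : ℂ) ^ (2 * m + 2 - j) * z ^ (j + 1))
      + (t : ℂ) ^ m * (1 - (t : ℂ) ^ 2) * (∑ j ∈ range (m + 1), ((m + 1 - j : ℕ) : ℂ) * z ^ (j + 1))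
      + (1 - (t : ℂ) ^ (m + 2)) ^ 2 * (z / (1 - t * z)) := by
  have : ∑ j ∈ range (m + 1), (c m t j : ℂ) * z ^ (j + 1) =
      (∑ j ∈ range (m + 1), (t : ℂ) ^ j * z ^ (j + 1))
      - (∑ j ∈ range (m + 1), (t : ℂ) ^ (2 * m + 2 - j) * z ^ (j + 1))
      - (t : ℂ) ^ m * (1 - (t : ℂ) ^ 2) *
        (∑ j ∈ range (m + 1), ((m + 1 - j : ℕ) : ℂ) * z ^ (j + 1)) := by
    rw [mul_sum, ← sum_sub_distrib, ← sum_sub_distrib]
    refine sum_congr rfl fun j _ => ?_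
    simp only [c]
    push_cast
    ring
  rw [H, this]
  ring

lemma H_add (m : ℕ) (t : ℝ) (z w : ℂ) (h : z * w = 1) (hz : 1 - (t : ℂ) * z ≠ 0)
    (hw : 1 - (t : ℂ) * w ≠ 0) :
    H m t z + H m t w = (t : ℂ) ^ m * (1 - (t : ℂ) ^ 2) *
      ((∑ k ∈ range (m + 2), z ^ k) * ∑ k ∈ range (m + 2), w ^ k) *
      (1 - (t : ℂ) * ((1 - z) * (1 - w)) / ((1 - t * z) * (1 - t * w))) := by
  have h' : w * z = 1 := by rw [mul_comm]; exact h
  have hf := fejer m z w h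
  have hgz : (1 - z) * ∑ k ∈ range (m + 2), z ^ k = 1 - z ^ (m + 2) := by
    rw [mul_comm]; exact geom_sum_mul_neg z (m + 2)
  have hgw : (1 - w) * ∑ k ∈ range (m + 2), w ^ k = 1 - w ^ (m + 2) := by
    rw [mul_comm]; exact geom_sum_mul_neg w (m + 2)
  have a1 := S1_mul m t z
  have a2 := S1_mul m t w
  have b1 := S2_mul m t z w h
  have b2 := S2_mul m t w z h'
  rw [H_eq, H_eq]
  set s1 := ∑ j ∈ range (m + 1), (t : ℂ) ^ j * z ^ (j + 1)
  set s1' := ∑ j ∈ range (m + 1), (t : ℂ) ^ j * w ^ (j + 1)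
  set s2 := ∑ j ∈ range (m + 1), (t : ℂ) ^ (2 * m + 2 - j) * z ^ (j + 1)
  set s2' := ∑ j ∈ range (m + 1), (t : ℂ) ^ (2 * m + 2 - j) * w ^ (j + 1)
  set s3 := ∑ j ∈ range (m + 1), ((m + 1 - j : ℕ) : ℂ) * z ^ (j + 1)
  set s3' := ∑ j ∈ range (m + 1), ((m + 1 - j : ℕ) : ℂ) * w ^ (j + 1)
  set g := ∑ k ∈ range (m + 2), z ^ k
  set g' := ∑ k ∈ range (m + 2), w ^ k
  have hC : (C0 m t : ℂ) = (m + 2) * (t : ℂ) ^ m * (1 - (t : ℂ) ^ 2) / 2
      - (t : ℂ) ^ (m + 1) * (1 - (t : ℂ) ^ (m + 2)) := by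
    simp only [C0]; push_cast; ring
  rw [hC]
  have hw' : w = z⁻¹ := by
    have hz0 : z ≠ 0 := by rintro rfl; simp at h
    field_simp
    rw [mul_comm]; exact h
  -- closed forms
  have c1 : s1 = (z - (t : ℂ) ^ (m + 1) * z ^ (m + 2)) / (1 - t * z) := by
    rw [eq_div_iff hz]; exact a1
  have c2 : s1' = (w - (t : ℂ) ^ (m + 1) * w ^ (m + 2)) / (1 - t * w) := by
    rw [eq_div_iff hw]; exact a2
  have c3 : s2 = ((t : ℂ) ^ (m + 2) * z ^ (m + 1) - (t : ℂ) ^ (2 * m + 3)) / (1 - t * w) := by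
    rw [eq_div_iff hw]; exact b1
  have c4 : s2' = ((t : ℂ) ^ (m + 2) * w ^ (m + 1) - (t : ℂ) ^ (2 * m + 3)) / (1 - t * z) := by
    rw [eq_div_iff hz]; exact b2
  have hX : -2 * (t : ℂ) ^ (m + 1) * (1 - (t : ℂ) ^ (m + 2)) - s1 - s1' + s2 + s2'
      + (1 - (t : ℂ) ^ (m + 2)) ^ 2 * (z / (1 - t * z))
      + (1 - (t : ℂ) ^ (m + 2)) ^ 2 * (w / (1 - t * w))
      = -((t : ℂ) ^ (m + 1) * (1 - (t : ℂ) ^ 2) * ((1 - z ^ (m + 2)) * (1 - w ^ (m + 2)))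
        / ((1 - t * z) * (1 - t * w))) := by
    rw [c1, c2, c3, c4]
    have hz0 : z ≠ 0 := by rintro rfl; simp at h
    have e1 : z ^ (m + 1) = w * z ^ (m + 2) := by
      rw [pow_succ z (m + 1)]; linear_combination (-(z ^ (m + 1))) * h
    have e2 : w ^ (m + 1) = z * w ^ (m + 2) := by
      rw [pow_succ w (m + 1)]; linear_combination (-(w ^ (m + 1))) * h
    have e3 : (t : ℂ) ^ (m + 2) = t * (t : ℂ) ^ (m + 1) := by ring
    have e4 : (t : ℂ) ^ (2 * m + 3) = t * ((t : ℂ) ^ (m + 1)) ^ 2 := by ring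
    have e5 : z ^ (m + 2) * w ^ (m + 2) = 1 := by rw [← mul_pow, h, one_pow]
    rw [e1, e2, e3, e4]
    generalize z ^ (m + 2) = U at e5 ⊢
    generalize w ^ (m + 2) = V at e5 ⊢
    generalize (t : ℂ) ^ (m + 1) = T
    generalize (t : ℂ) = τ at hz hw ⊢
    have key : -2 * T * (1 - τ * T) * ((1 - τ * z) * (1 - τ * w)) - (z - T * U) * (1 - τ * w)
        - (w - T * V) * (1 - τ * z) + (τ * T * (w * U) - τ * T ^ 2) * (1 - τ * z)
        + (τ * T * (z * V) - τ * T ^ 2) * (1 - τ * w)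
        + (1 - τ * T) ^ 2 * (z * (1 - τ * w) + w * (1 - τ * z))
        + T * (1 - τ ^ 2) * ((1 - U) * (1 - V)) = 0 := by
      linear_combination (T - τ ^ 2 * T) * e5 + (2 * τ ^ 2 * T - τ ^ 2 * T * (U + V)) * h
    have e6 : -2 * T * (1 - τ * T) - (z - T * U) / (1 - τ * z) - (w - T * V) / (1 - τ * w)
        + (τ * T * (w * U) - τ * T ^ 2) / (1 - τ * w) + (τ * T * (z * V) - τ * T ^ 2) / (1 - τ * z)
        + (1 - τ * T) ^ 2 * (z / (1 - τ * z)) + (1 - τ * T) ^ 2 * (w / (1 - τ * w))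
        + T * (1 - τ ^ 2) * ((1 - U) * (1 - V)) / ((1 - τ * z) * (1 - τ * w))
        = (-2 * T * (1 - τ * T) * ((1 - τ * z) * (1 - τ * w)) - (z - T * U) * (1 - τ * w)
        - (w - T * V) * (1 - τ * z) + (τ * T * (w * U) - τ * T ^ 2) * (1 - τ * z)
        + (τ * T * (z * V) - τ * T ^ 2) * (1 - τ * w)
        + (1 - τ * T) ^ 2 * (z * (1 - τ * w) + w * (1 - τ * z))
        + T * (1 - τ ^ 2) * ((1 - U) * (1 - V))) / ((1 - τ * z) * (1 - τ * w)) := by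
      field_simp
      ring
    rw [key, zero_div] at e6
    linear_combination e6
  have hgg : (1 - z ^ (m + 2)) * (1 - w ^ (m + 2)) = ((1 - z) * (1 - w)) * (g * g') := by
    rw [← hgz, ← hgw]; ring
  rw [hgg] at hX
  have hfin : (t : ℂ) ^ m * (1 - (t : ℂ) ^ 2) * (g * g') *
      (1 - (t : ℂ) * ((1 - z) * (1 - w)) / ((1 - t * z) * (1 - t * w)))
      = (t : ℂ) ^ m * (1 - (t : ℂ) ^ 2) * (g * g')
        - ((t : ℂ) ^ (m + 1) * (1 - (t : ℂ) ^ 2) * (((1 - z) * (1 - w)) * (g * g'))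
        / ((1 - t * z) * (1 - t * w))) := by
    ring
  rw [hfin]
  linear_combination hX + (t : ℂ) ^ m * (1 - (t : ℂ) ^ 2) * hf

end Pool.Agent.H206R3.NB
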