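import Mathlib
import Pool.Agent.H206R3.NB1

set_option autoImplicit false

namespace Pool.Agent.H206R3.NB

open Finset

lemma H_conj (m : ℕ) (t : ℝ) (z : ℂ) : H m t ((starRingEnd ℂ) z) = (starRingEnd ℂ) (H m t z) := by
  simp only [H, map_add, map_sub, map_mul, map_div₀, map_pow, map_sum, map_one, Complex.conj_ofReal]

/-- The inequality on the unit circle. -/
lemma H_re_circle (m : ℕ) {t : ℝ} (h0 : 0 < t) (h1 : t < 1) {z : ℂ} (hz : ‖z‖ = 1) :
    0 ≤ (H m t z).re := by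
  set w := (starRingEnd ℂ) z with hw
  have hzw : z * w = 1 := by
    rw [hw, Complex.mul_conj, Complex.normSq_eq_norm_sq, hz]; simp
  have hne : ∀ x : ℂ, ‖x‖ = 1 → 1 - (t : ℂ) * x ≠ 0 := by
    intro x hx h
    have : (t : ℂ) * x = 1 := (sub_eq_zero.1 h).symm
    have h2 := congrArg norm this
    rw [norm_mul, hx, mul_one, Complex.norm_real, norm_one, Real.norm_eq_abs, abs_of_pos h0] at h2
    linarith
  have hwn : ‖w‖ = 1 := by rw [hw, RCLike.norm_conj]; exact hz
  have key := H_add m t z w hzw (hne z hz) (hne w hwn)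
  have hadd : H m t z + H m t w = ((2 * (H m t z).re : ℝ) : ℂ) := by
    rw [hw, H_conj, Complex.add_conj]
  rw [hadd] at key
  have hs : ∑ k ∈ range (m + 2), w ^ k = (starRingEnd ℂ) (∑ k ∈ range (m + 2), z ^ k) := by
    rw [map_sum]; simp only [map_pow, hw]
  have e1 : (∑ k ∈ range (m + 2), z ^ k) * ∑ k ∈ range (m + 2), w ^ k
      = ((Complex.normSq (∑ k ∈ range (m + 2), z ^ k) : ℝ) : ℂ) := by
    rw [hs, Complex.mul_conj]
  have e2 : (1 - z) * (1 - w) = ((Complex.normSq (1 - z) : ℝ) : ℂ) := by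
    rw [← Complex.mul_conj, map_sub, map_one]
  have e3 : (1 - (t : ℂ) * z) * (1 - t * w) = ((Complex.normSq (1 - t * z) : ℝ) : ℂ) := by
    rw [← Complex.mul_conj, map_sub, map_one, map_mul, Complex.conj_ofReal]
  rw [e1, e2, e3] at key
  have key' : 2 * (H m t z).re = t ^ m * (1 - t ^ 2) *
      Complex.normSq (∑ k ∈ range (m + 2), z ^ k) *
      (1 - t * Complex.normSq (1 - z) / Complex.normSq (1 - t * z)) := by
    exact_mod_cast key
  have hpos : 0 < Complex.normSq (1 - (t : ℂ) * z) := Complex.normSq_pos.2 (hne z hz)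
  have hle : t * Complex.normSq (1 - z) / Complex.normSq (1 - (t : ℂ) * z) ≤ 1 := by
    rw [div_le_one hpos]
    have hn : z.re * z.re + z.im * z.im = 1 := by
      have := Complex.normSq_eq_norm_sq z
      rw [hz, Complex.normSq_apply] at this
      simpa using this
    rw [Complex.normSq_apply, Complex.normSq_apply]
    simp only [Complex.sub_re, Complex.sub_im, Complex.one_re, Complex.one_im, Complex.mul_re,
      Complex.mul_im, Complex.ofReal_re, Complex.ofReal_im, zero_mul, sub_zero, add_zero]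
    nlinarith [sq_nonneg (1 - t), hn]
  have : 0 ≤ t ^ m * (1 - t ^ 2) * Complex.normSq (∑ k ∈ range (m + 2), z ^ k) *
      (1 - t * Complex.normSq (1 - z) / Complex.normSq (1 - (t : ℂ) * z)) := by
    refine mul_nonneg (mul_nonneg (mul_nonneg (pow_nonneg h0.le _) ?_) (Complex.normSq_nonneg _)) ?_
    · nlinarith
    · linarith
  linarith

/-- The inequality on the closed unit disc. -/
lemma H_re_disc (m : ℕ) {t : ℝ} (h0 : 0 < t) (h1 : t < 1) {z : ℂ} (hz : ‖z‖ ≤ 1) :
    0 ≤ (H m t z).re := by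
  have hne : ∀ x : ℂ, ‖x‖ ≤ 1 → 1 - (t : ℂ) * x ≠ 0 := by
    intro x hx h
    have : (t : ℂ) * x = 1 := (sub_eq_zero.1 h).symm
    have h2 := congrArg norm this
    rw [norm_mul, Complex.norm_real, norm_one, Real.norm_eq_abs, abs_of_pos h0] at h2
    nlinarith [norm_nonneg x]
  have hd : ∀ x : ℂ, ‖x‖ ≤ 1 → DifferentiableAt ℂ (fun z => Complex.exp (-(H m t z))) x := by
    intro x hx
    have := hne x hx
    unfold H
    fun_prop (disch := assumption)
  have hdc : DiffContOnCl ℂ (fun z => Complex.exp (-(H m t z))) (Metric.ball (0 : ℂ) 1) := by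
    apply DifferentiableOn.diffContOnCl
    intro x hx
    rw [closure_ball _ one_ne_zero, Metric.mem_closedBall, dist_zero_right] at hx
    exact (hd x hx).differentiableWithinAt
  have hfr : ∀ x ∈ frontier (Metric.ball (0 : ℂ) 1), ‖Complex.exp (-(H m t x))‖ ≤ 1 := by
    intro x hx
    rw [frontier_ball _ one_ne_zero, Metric.mem_sphere, dist_zero_right] at hx
    rw [Complex.norm_exp, Real.exp_le_one_iff, Complex.neg_re]
    linarith [H_re_circle m h0 h1 hx]
  have hcl : z ∈ closure (Metric.ball (0 : ℂ) 1) := by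
    rw [closure_ball _ one_ne_zero, Metric.mem_closedBall, dist_zero_right]
    exact hz
  have := Complex.norm_le_of_forall_mem_frontier_norm_le Metric.isBounded_ball hdc hfr hcl
  rw [Complex.norm_exp, Real.exp_le_one_iff, Complex.neg_re] at this
  linarith

lemma gnonneg {t : ℝ} (h0 : 0 ≤ t) (h1 : t ≤ 1) (k : ℕ) :
    0 ≤ 1 - t ^ (2 * k + 2) - ((k : ℝ) + 1) * t ^ k * (1 - t ^ 2) := by
  induction k with
  | zero => simp
  | succ k ih =>
    have e : 1 - t ^ (2 * (k + 1) + 2) - (((k + 1 : ℕ) : ℝ) + 1) * t ^ (k + 1) * (1 - t ^ 2)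
        = t * (1 - t ^ (2 * k + 2) - ((k : ℝ) + 1) * t ^ k * (1 - t ^ 2))
          + (1 - t) * ((1 - t ^ (k + 1)) * (1 - t ^ (k + 2))) := by
      push_cast
      ring
    rw [e]
    have a : t ^ (k + 1) ≤ 1 := pow_le_one₀ h0 h1
    have b : t ^ (k + 2) ≤ 1 := pow_le_one₀ h0 h1
    exact add_nonneg (mul_nonneg h0 ih)
      (mul_nonneg (by linarith) (mul_nonneg (by linarith) (by linarith)))

lemma c_nonneg (m : ℕ) {t : ℝ} (h0 : 0 ≤ t) (h1 : t ≤ 1) {j : ℕ} (hj : j ≤ m) : 0 ≤ c m t j := by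
  obtain ⟨k, rfl⟩ := Nat.exists_eq_add_of_le hj
  have := gnonneg h0 h1 k
  have e : c (j + k) t j = t ^ j * (1 - t ^ (2 * k + 2) - ((k : ℝ) + 1) * t ^ k * (1 - t ^ 2)) := by
    have e1 : 2 * (j + k) + 2 - j = j + (2 * k + 2) := by omega
    have e2 : (j + k) + 1 - j = k + 1 := by omega
    rw [c, e1, e2]
    push_cast
    ring
  rw [e]
  exact mul_nonneg (pow_nonneg h0 _) this

lemma c_zero (m : ℕ) (t : ℝ) : c m t 0 = 1 - t ^ (2 * m + 2) - ((m : ℝ) + 1) * t ^ m * (1 - t ^ 2) := by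
  simp [c]

lemma c_last (m : ℕ) (t : ℝ) : c m t m = 0 := by
  have e1 : 2 * m + 2 - m = m + 2 := by omega
  have e2 : m + 1 - m = 1 := by omega
  rw [c, e1, e2]; push_cast; ring

/-- The total of the coefficients. -/
lemma sum_c (m : ℕ) {t : ℝ} (h1 : t < 1) :
    (m + 1) * C0 m t + ∑ j ∈ range (m + 1), c m t j
      = (1 - t ^ (m + 2)) ^ 2 / (1 - t) - (m + 2) * t ^ (m + 1) * (1 - t ^ (m + 2)) := by
  have hne : (1 - t) ≠ 0 := by linarith
  have s3 : ∀ n : ℕ, ∑ j ∈ range (n + 1), ((n + 1 - j : ℕ) : ℝ) = (n + 1) * (n + 2) / 2 := by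
    intro n
    induction n with
    | zero => norm_num
    | succ n ih =>
      rw [sum_range_succ']
      have e : ∑ k ∈ range (n + 1), ((n + 1 + 1 - (k + 1) : ℕ) : ℝ)
          = ∑ j ∈ range (n + 1), ((n + 1 - j : ℕ) : ℝ) := by
        refine sum_congr rfl fun j _ => ?_
        congr 1
        omega
      rw [e, ih]
      push_cast
      ring
  have s1 : (∑ j ∈ range (m + 1), t ^ j) = (1 - t ^ (m + 1)) / (1 - t) := by
    rw [eq_div_iff hne]; exact geom_sum_mul_neg t (m + 1)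
  have s2 : (∑ j ∈ range (m + 1), t ^ (2 * m + 2 - j)) = t ^ (m + 2) * ((1 - t ^ (m + 1)) / (1 - t)) := by
    rw [← s1, ← sum_range_reflect, mul_sum]
    refine sum_congr rfl fun j hj => ?_
    have := mem_range.1 hj
    rw [← pow_add]
    congr 1
    omega
  have e : ∑ j ∈ range (m + 1), c m t j = (∑ j ∈ range (m + 1), t ^ j)
      - (∑ j ∈ range (m + 1), t ^ (2 * m + 2 - j))
      - (∑ j ∈ range (m + 1), ((m + 1 - j : ℕ) : ℝ)) * (t ^ m * (1 - t ^ 2)) := by
    rw [sum_mul, ← sum_sub_distrib, ← sum_sub_distrib]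
    refine sum_congr rfl fun j _ => ?_
    simp only [c]; ring
  rw [e, s1, s2, s3, C0]
  field_simp
  ring

variable {ι : Type*} [Fintype ι]

/-- The basic inequality for lists. -/
lemma list_ineq (m : ℕ) {t : ℝ} (h0 : 0 < t) (h1 : t < 1) (hc : Fintype.card ι = m + 1)
    (l : ι → ℂ) (hl : ∀ i, ‖l i‖ ≤ 1)
    (hp : ∀ k, 1 ≤ k → k ≤ m → -1 ≤ (∑ i, l i ^ k).re) (hp1 : -1 ≤ (∑ i, l i).re) :
    -∑ i, (l i / (1 - t * l i)).re ≤ 1 / (1 - t) - (m + 2) * t ^ (m + 1) / (1 - t ^ (m + 2))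
      - c m t 0 * (1 + (∑ i, l i).re) := by
  have hH : 0 ≤ ∑ i, (H m t (l i)).re := sum_nonneg fun i _ => H_re_disc m h0 h1 (hl i)
  have hD : 0 < 1 - t ^ (m + 2) := by
    have : t ^ (m + 2) < 1 := pow_lt_one₀ h0.le h1 (by omega)
    linarith
  have hD1 : 1 - t ^ (m + 2) ≤ 1 := by
    have : 0 ≤ t ^ (m + 2) := pow_nonneg h0.le _
    linarith
  have e1 : ∑ i, (H m t (l i)).re = (m + 1) * C0 m t
      - ∑ j ∈ range (m + 1), c m t j * (∑ i, l i ^ (j + 1)).re
      + (1 - t ^ (m + 2)) ^ 2 * ∑ i, (l i / (1 - t * l i)).re := by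
    have : ∀ i, (H m t (l i)).re = C0 m t - ∑ j ∈ range (m + 1), c m t j * (l i ^ (j + 1)).re
        + (1 - t ^ (m + 2)) ^ 2 * (l i / (1 - t * l i)).re := by
      intro i
      have e2 : ((1 - (t : ℂ) ^ (m + 2)) ^ 2) = (((1 - t ^ (m + 2)) ^ 2 : ℝ) : ℂ) := by
        push_cast; ring
      rw [H, e2, Complex.add_re, Complex.sub_re, Complex.ofReal_re, Complex.re_sum,
        Complex.re_ofReal_mul]
      congr 2
      refine sum_congr rfl fun j _ => ?_
      rw [Complex.re_ofReal_mul]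
    simp only [this]
    rw [sum_add_distrib, sum_sub_distrib, sum_const, card_univ, hc, ← mul_sum, sum_comm]
    congr 2
    · simp
    · refine sum_congr rfl fun j _ => ?_
      rw [← mul_sum, Complex.re_sum]
  have e3 : -∑ j ∈ range (m + 1), c m t j * (∑ i, l i ^ (j + 1)).re
      ≤ ∑ j ∈ range (m + 1), c m t j - c m t 0 * (1 + (∑ i, l i).re) := by
    rw [sum_range_succ', sum_range_succ' (fun j => c m t j)]
    simp only [zero_add, pow_one]
    have : -∑ j ∈ range m, c m t (j + 1) * (∑ i, l i ^ (j + 1 + 1)).re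
        ≤ ∑ j ∈ range m, c m t (j + 1) := by
      rw [← sum_neg_distrib]
      refine sum_le_sum fun j hj => ?_
      have hj' := mem_range.1 hj
      rcases Nat.lt_or_ge (j + 1) m with h | h
      · have a := hp (j + 1 + 1) (by omega) (by omega)
        have b := c_nonneg m h0.le h1.le (j := j + 1) (by omega)
        nlinarith
      · have : j + 1 = m := by omega
        rw [this, c_last]; simp
    linarith
  have e4 := sum_c m h1
  rw [e1] at hH
  have e5 : (1 - t ^ (m + 2)) ^ 2 * (-∑ i, (l i / (1 - t * l i)).re) ≤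
      (1 - t ^ (m + 2)) ^ 2 / (1 - t) - (m + 2) * t ^ (m + 1) * (1 - t ^ (m + 2))
        - c m t 0 * (1 + (∑ i, l i).re) := by
    linarith
  have e6 : (1 - t ^ (m + 2)) ^ 2 * (1 / (1 - t) - (m + 2) * t ^ (m + 1) / (1 - t ^ (m + 2))
      - c m t 0 * (1 + (∑ i, l i).re)) =
      (1 - t ^ (m + 2)) ^ 2 / (1 - t) - (m + 2) * t ^ (m + 1) * (1 - t ^ (m + 2))
        - (1 - t ^ (m + 2)) ^ 2 * (c m t 0 * (1 + (∑ i, l i).re)) := by
    have := hD.ne'
    field_simp
  have e7 : (1 - t ^ (m + 2)) ^ 2 * (c m t 0 * (1 + (∑ i, l i).re))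
      ≤ c m t 0 * (1 + (∑ i, l i).re) := by
    have a : 0 ≤ c m t 0 * (1 + (∑ i, l i).re) :=
      mul_nonneg (c_nonneg m h0.le h1.le (by omega)) (by linarith)
    have b : (1 - t ^ (m + 2)) ^ 2 ≤ 1 := pow_le_one₀ hD.le hD1
    nlinarith
  have hD2 : 0 < (1 - t ^ (m + 2)) ^ 2 := by positivity
  refine le_of_mul_le_mul_left ?_ hD2
  rw [e6]
  linarith

end Pool.Agent.H206R3.NB
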