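import Mathlib
import Pool.Agent.H206R3.NB2

set_option autoImplicit false

namespace Pool.Agent.H206R3.NB

open Finset Filter Topology

noncomputable def A (m : ℕ) (t : ℝ) : ℝ :=
  t - t ^ (2 * m + 3) / (2 * m + 3) - t ^ (m + 1) + ((m : ℝ) + 1) / (m + 3) * t ^ (m + 3)

lemma A_deriv (m : ℕ) (t : ℝ) : HasDerivAt (A m) (c m t 0) t := by
  have h : HasDerivAt (A m) (1 - (((2 * m + 3 : ℕ) : ℝ) * t ^ (2 * m + 2)) / (2 * m + 3)
      - ((m + 1 : ℕ) : ℝ) * t ^ m + ((m : ℝ) + 1) / (m + 3) * (((m + 3 : ℕ) : ℝ) * t ^ (m + 2))) t :=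
    (((hasDerivAt_id t).sub ((hasDerivAt_pow (2 * m + 3) t).div_const _)).sub
      (hasDerivAt_pow (m + 1) t)).add ((hasDerivAt_pow (m + 3) t).const_mul _)
  refine h.congr_deriv ?_
  rw [c_zero]
  have a : (2 * (m : ℝ) + 3) ≠ 0 := by positivity
  have b : ((m : ℝ) + 3) ≠ 0 := by positivity
  push_cast
  field_simp
  ring

lemma A_zero (m : ℕ) : A m 0 = 0 := by
  simp [A]

lemma one_sub_ne {t : ℝ} (h0 : 0 ≤ t) (h1 : t < 1) {x : ℂ} (hx : ‖x‖ ≤ 1) :
    1 - (t : ℂ) * x ≠ 0 := by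
  intro h
  have : (t : ℂ) * x = 1 := (sub_eq_zero.1 h).symm
  have h2 := congrArg norm this
  rw [norm_mul, Complex.norm_real, norm_one, Real.norm_eq_abs, abs_of_nonneg h0] at h2
  nlinarith [norm_nonneg x]

lemma log_deriv {t : ℝ} (h0 : 0 ≤ t) (h1 : t < 1) {x : ℂ} (hx : ‖x‖ ≤ 1) :
    HasDerivAt (fun t : ℝ => Real.log (Complex.normSq (1 - t * x)) / 2)
      (-(x / (1 - t * x)).re) t := by
  have hne := one_sub_ne h0 h1 hx
  have hpos : 0 < Complex.normSq (1 - (t : ℂ) * x) := Complex.normSq_pos.2 hne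
  have e : (fun t : ℝ => Complex.normSq (1 - t * x)) =
      fun t : ℝ => (1 - t * x.re) ^ 2 + (t * x.im) ^ 2 := by
    funext s
    rw [Complex.normSq_apply]
    simp only [Complex.sub_re, Complex.sub_im, Complex.one_re, Complex.one_im, Complex.mul_re,
      Complex.mul_im, Complex.ofReal_re, Complex.ofReal_im, zero_mul, sub_zero, add_zero]
    ring
  have h2 : HasDerivAt (fun t : ℝ => Complex.normSq (1 - t * x))
      (2 * (1 - t * x.re) * (-x.re) + 2 * (t * x.im) * x.im) t := by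
    rw [e]
    have a : HasDerivAt (fun t : ℝ => 1 - t * x.re) (-x.re) t := by
      simpa using ((hasDerivAt_id t).mul_const x.re).const_sub 1
    have b : HasDerivAt (fun t : ℝ => t * x.im) (x.im) t := by
      simpa using (hasDerivAt_id t).mul_const x.im
    have h5 := (a.pow 2).add (b.pow 2)
    refine HasDerivAt.congr_deriv h5 ?_
    push_cast
    ring
  have h3 := (h2.log hpos.ne').div_const 2
  refine h3.congr_deriv ?_
  rw [Complex.div_re]
  have hn : Complex.normSq (1 - (t : ℂ) * x) ≠ 0 := hpos.ne'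
  simp only [Complex.sub_re, Complex.sub_im, Complex.one_re, Complex.one_im, Complex.mul_re,
      Complex.mul_im, Complex.ofReal_re, Complex.ofReal_im, zero_mul, sub_zero, add_zero]
  field_simp
  ring

variable {ι : Type*} [Fintype ι]

noncomputable def Phi (m : ℕ) (l : ι → ℂ) (t : ℝ) : ℝ :=
  (∑ i, Real.log (Complex.normSq (1 - t * l i)) / 2) - Real.log (1 - t ^ (m + 2))
    + Real.log (1 - t) + (1 + (∑ i, l i).re) * A m t

lemma Phi_deriv (m : ℕ) (l : ι → ℂ) (hl : ∀ i, ‖l i‖ ≤ 1) {t : ℝ} (h0 : 0 ≤ t) (h1 : t < 1) :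
    HasDerivAt (Phi m l) ((∑ i, -(l i / (1 - t * l i)).re)
      + (m + 2) * t ^ (m + 1) / (1 - t ^ (m + 2)) - 1 / (1 - t)
      + (1 + (∑ i, l i).re) * c m t 0) t := by
  have hD : 0 < 1 - t ^ (m + 2) := by
    have : t ^ (m + 2) < 1 := pow_lt_one₀ h0 h1 (by omega)
    linarith
  have a : HasDerivAt (fun t : ℝ => ∑ i, Real.log (Complex.normSq (1 - t * l i)) / 2)
      (∑ i, -(l i / (1 - t * l i)).re) t := by
    apply HasDerivAt.fun_sum
    intro i _
    exact log_deriv h0 h1 (hl i)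
  have b : HasDerivAt (fun t : ℝ => Real.log (1 - t ^ (m + 2)))
      (-(((m + 2 : ℕ) : ℝ) * t ^ (m + 1)) / (1 - t ^ (m + 2))) t :=
    ((hasDerivAt_pow (m + 2) t).const_sub 1).log hD.ne'
  have d : HasDerivAt (fun t : ℝ => Real.log (1 - t)) (-1 / (1 - t)) t :=
    ((hasDerivAt_id t).const_sub 1).log (by simp; linarith)
  have e := (A_deriv m t).const_mul (1 + (∑ i, l i).re)
  have h := ((a.sub b).add d).add e
  refine HasDerivAt.congr_deriv h ?_
  push_cast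
  ring

lemma Phi_zero (m : ℕ) (l : ι → ℂ) : Phi m l 0 = 0 := by
  simp [Phi, A_zero]

lemma Phi_le (m : ℕ) (hc : Fintype.card ι = m + 1)
    (l : ι → ℂ) (hl : ∀ i, ‖l i‖ ≤ 1)
    (hp : ∀ k, 1 ≤ k → k ≤ m → -1 ≤ (∑ i, l i ^ k).re) (hp1 : -1 ≤ (∑ i, l i).re)
    {t : ℝ} (h0 : 0 ≤ t) (h1 : t < 1) : Phi m l t ≤ 0 := by
  have hanti : AntitoneOn (Phi m l) (Set.Ico 0 1) := by
    apply antitoneOn_of_deriv_nonpos (convex_Ico 0 1)
    · intro x hx
      exact (Phi_deriv m l hl hx.1 hx.2).continuousAt.continuousWithinAt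
    · intro x hx
      rw [interior_Ico] at hx
      exact (Phi_deriv m l hl hx.1.le hx.2).differentiableAt.differentiableWithinAt
    · intro x hx
      rw [interior_Ico] at hx
      rw [(Phi_deriv m l hl hx.1.le hx.2).deriv, sum_neg_distrib]
      have := list_ineq m hx.1 hx.2 hc l hl hp hp1
      linarith
  have := hanti (Set.left_mem_Ico.2 zero_lt_one) ⟨h0, h1⟩ h0
  rwa [Phi_zero] at this

/-- The strong Boyle-Handelman inequality, with a correction for the first trace. -/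
lemma prod_le (m : ℕ) (hc : Fintype.card ι = m + 1)
    (l : ι → ℂ) (hl : ∀ i, ‖l i‖ ≤ 1)
    (hp : ∀ k, 1 ≤ k → k ≤ m → -1 ≤ (∑ i, l i ^ k).re) (hp1 : -1 ≤ (∑ i, l i).re)
    {t : ℝ} (h0 : 0 ≤ t) (h1 : t < 1) :
    ∏ i, ‖1 - t * l i‖ ≤ (∑ k ∈ range (m + 2), t ^ k) *
      Real.exp (-((1 + (∑ i, l i).re) * A m t)) := by
  have hD : 0 < 1 - t ^ (m + 2) := by
    have : t ^ (m + 2) < 1 := pow_lt_one₀ h0 h1 (by omega)
    linarith
  have hpos : ∀ i, 0 < ‖1 - (t : ℂ) * l i‖ := fun i => norm_pos_iff.2 (one_sub_ne h0 h1 (hl i))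
  have h := Phi_le m hc l hl hp hp1 h0 h1
  have e1 : ∀ i, Real.log (Complex.normSq (1 - t * l i)) / 2 = Real.log ‖1 - (t : ℂ) * l i‖ := by
    intro i
    rw [Complex.normSq_eq_norm_sq, Real.log_pow]
    push_cast; ring
  have e2 : ∑ k ∈ range (m + 2), t ^ k = (1 - t ^ (m + 2)) / (1 - t) := by
    rw [eq_div_iff (by linarith)]; exact geom_sum_mul_neg t (m + 2)
  have h1' : 0 < 1 - t := by linarith
  have hprod : 0 < ∏ i, ‖1 - (t : ℂ) * l i‖ := prod_pos fun i _ => hpos i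
  rw [e2, ← Real.log_le_log_iff hprod (by positivity), Real.log_mul (by positivity)
    (Real.exp_pos _).ne', Real.log_exp, Real.log_div hD.ne' h1'.ne',
    Real.log_prod (fun i _ => (hpos i).ne')]
  rw [Phi] at h
  simp only [e1] at h
  linarith

lemma prod_le_one (m : ℕ) (hc : Fintype.card ι = m + 1)
    (l : ι → ℂ) (hl : ∀ i, ‖l i‖ ≤ 1)
    (hp : ∀ k, 1 ≤ k → k ≤ m → -1 ≤ (∑ i, l i ^ k).re) (hp1 : -1 ≤ (∑ i, l i).re) :
    ∏ i, ‖1 - l i‖ ≤ ((m : ℝ) + 2) * Real.exp (-((1 + (∑ i, l i).re) * A m 1)) := by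
  have hA : Continuous (A m) := by
    unfold A; fun_prop
  have c1 : Continuous fun t : ℝ => ∏ i, ‖1 - (t : ℂ) * l i‖ := by fun_prop
  have c2 : Continuous fun t : ℝ => (∑ k ∈ range (m + 2), t ^ k) *
      Real.exp (-((1 + (∑ i, l i).re) * A m t)) := by fun_prop
  have t1 : Tendsto (fun t : ℝ => ∏ i, ‖1 - (t : ℂ) * l i‖) (𝓝[<] 1) (𝓝 (∏ i, ‖1 - l i‖)) := by
    have := (c1.tendsto 1).mono_left (nhdsWithin_le_nhds (s := Set.Iio 1))
    simpa using this
  have t2 : Tendsto (fun t : ℝ => (∑ k ∈ range (m + 2), t ^ k) *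
      Real.exp (-((1 + (∑ i, l i).re) * A m t))) (𝓝[<] 1)
      (𝓝 (((m : ℝ) + 2) * Real.exp (-((1 + (∑ i, l i).re) * A m 1)))) := by
    have := (c2.tendsto 1).mono_left (nhdsWithin_le_nhds (s := Set.Iio 1))
    simpa using this
  refine le_of_tendsto_of_tendsto t1 t2 ?_
  filter_upwards [Ioo_mem_nhdsLT (zero_lt_one (α := ℝ))] with t ht
  exact prod_le m hc l hl hp hp1 ht.1.le ht.2

end Pool.Agent.H206R3.NB
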