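import Mathlib
import Pool.Agent.H206R3.NB3

set_option autoImplicit false

namespace Pool.Agent.H206R3.NB

open Finset

lemma rpow_aux {x S : ℝ} (hx : 1 ≤ x) (hS : 0 ≤ S) (hS1 : S ≤ x + 1) : (S / x) ^ x ≤ S := by
  have hx0 : 0 < x := by linarith
  rcases le_or_gt S x with h | h
  · rcases hS.eq_or_lt with h0 | h0
    · rw [← h0, zero_div, Real.zero_rpow hx0.ne']
    · have h1 : (S / x) ^ x ≤ (S / x) ^ (1 : ℝ) :=
        Real.rpow_le_rpow_of_exponent_ge (by positivity) (by rw [div_le_one hx0]; exact h) hx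
      rw [Real.rpow_one] at h1
      refine h1.trans ?_
      rw [div_le_iff₀ hx0]
      nlinarith
  · have hS0 : 0 < S := by linarith
    have hq : 0 < S / x := by positivity
    rw [Real.rpow_def_of_pos hq]
    have hlog : Real.log (S / x) * x ≤ Real.log S := by
      rw [Real.log_div hS0.ne' hx0.ne']
      have a : Real.log S ≤ Real.log (x + 1) := Real.log_le_log hS0 hS1
      have b : Real.log (x + 1) ≤ Real.log x + 1 / x := by
        have b1 : Real.log ((x + 1) / x) ≤ (x + 1) / x - 1 :=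
          Real.log_le_sub_one_of_pos (by positivity)
        rw [Real.log_div (by positivity) hx0.ne'] at b1
        have b2 : (x + 1) / x - 1 = 1 / x := by field_simp; ring
        linarith
      have d : 1 - 1 / x ≤ Real.log x := by
        have := Real.one_sub_inv_le_log_of_pos hx0
        rw [one_div]; exact this
      have e : (x - 1) * Real.log S ≤ (x - 1) * (Real.log x + 1 / x) :=
        mul_le_mul_of_nonneg_left (a.trans b) (by linarith)
      have f : (x - 1) * (Real.log x + 1 / x) = x * Real.log x - Real.log x + (1 - 1 / x) := by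
        field_simp
      nlinarith
    calc Real.exp (Real.log (S / x) * x) ≤ Real.exp (Real.log S) := Real.exp_le_exp.2 hlog
      _ = S := Real.exp_log hS0

variable {ι : Type*} [Fintype ι]

/-- The arithmetic-geometric mean bound. -/
lemma amgm (m : ℕ) (hc : Fintype.card ι = m + 1) (l : ι → ℂ) (hl : ∀ i, ‖l i‖ ≤ 1) :
    ∏ i, ‖1 - l i‖ ≤ ((((m : ℝ) + 1) - (∑ i, l i).re) / (((m : ℝ) + 1) / 2)) ^ (((m : ℝ) + 1) / 2) := by
  set r : ℝ := (m : ℝ) + 1 with hr
  have hr0 : 0 < r := by positivity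
  have ha : ∀ i, ‖1 - l i‖ ^ 2 ≤ 2 * (1 - (l i).re) := by
    intro i
    have h1 : ‖1 - l i‖ ^ 2 = (1 - (l i).re) ^ 2 + (l i).im ^ 2 := by
      rw [← Complex.normSq_eq_norm_sq, Complex.normSq_apply]; simp; ring
    have h2 : (l i).re ^ 2 + (l i).im ^ 2 ≤ 1 := by
      have h3 : ‖l i‖ ^ 2 = (l i).re ^ 2 + (l i).im ^ 2 := by
        rw [← Complex.normSq_eq_norm_sq, Complex.normSq_apply]; ring
      rw [← h3]
      exact pow_le_one₀ (norm_nonneg _) (hl i)
    rw [h1]; nlinarith
  have h1 := Real.geom_mean_le_arith_mean_weighted univ (fun _ : ι => 1 / r)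
    (fun i => ‖1 - l i‖ ^ 2) (fun _ _ => by positivity)
    (by rw [sum_const, card_univ, hc, nsmul_eq_mul, hr]; push_cast; field_simp)
    (fun _ _ => by positivity)
  have h2 : ∑ i, 1 / r * ‖1 - l i‖ ^ 2 ≤ (r - (∑ i, l i).re) / (r / 2) := by
    have h3 : ∑ i, 1 / r * ‖1 - l i‖ ^ 2 ≤ ∑ i, 1 / r * (2 * (1 - (l i).re)) :=
      sum_le_sum fun i _ => mul_le_mul_of_nonneg_left (ha i) (by positivity)
    refine h3.trans (le_of_eq ?_)
    rw [← mul_sum, ← mul_sum, sum_sub_distrib, sum_const, card_univ, hc, Complex.re_sum,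
      nsmul_eq_mul]
    push_cast
    rw [← hr]
    field_simp
  have h4 : ∏ i, ‖1 - l i‖ = (∏ i, (‖1 - l i‖ ^ 2) ^ (1 / r)) ^ (r / 2) := by
    rw [← Real.finsetProd_rpow _ _ (fun i _ => by positivity)]
    refine prod_congr rfl fun i _ => ?_
    rw [← Real.rpow_mul (by positivity)]
    have : 1 / r * (r / 2) = 1 / 2 := by field_simp
    rw [this, ← Real.sqrt_eq_rpow, Real.sqrt_sq (norm_nonneg _)]
  rw [h4]
  exact Real.rpow_le_rpow (prod_nonneg fun i _ => by positivity) (h1.trans h2) (by positivity)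

/-- Neumann's inequality for lists. -/
theorem neumann_list (m : ℕ) (hm : 1 ≤ m) (hc : Fintype.card ι = m + 1)
    (l : ι → ℂ) (hl : ∀ i, ‖l i‖ ≤ 1)
    (hp : ∀ k, 1 ≤ k → k ≤ m → -1 ≤ (∑ i, l i ^ k).re) :
    ∏ i, ‖1 - l i‖ ≤ ((m : ℝ) + 1) - (∑ i, l i).re := by
  have hp1 : -1 ≤ (∑ i, l i).re := by
    have := hp 1 le_rfl hm
    simpa using this
  have hS0 : 0 ≤ ((m : ℝ) + 1) - (∑ i, l i).re := by
    have : (∑ i, l i).re ≤ (m : ℝ) + 1 := by
      rw [Complex.re_sum]
      calc ∑ i, (l i).re ≤ ∑ _i : ι, (1 : ℝ) :=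
            sum_le_sum fun i _ => (Complex.re_le_norm _).trans (hl i)
        _ = (m : ℝ) + 1 := by rw [sum_const, card_univ, hc, nsmul_eq_mul]; push_cast; ring
    linarith
  set S := ((m : ℝ) + 1) - (∑ i, l i).re with hS
  have hA := amgm m hc l hl
  rw [← hS] at hA
  rcases hm.eq_or_lt with h1 | h2
  · -- two numbers
    rw [← h1] at hA
    have e : (((1 : ℕ) : ℝ) + 1) / 2 = 1 := by norm_num
    rw [e, Real.rpow_one, div_one] at hA
    exact hA
  have hm2 : (2 : ℝ) ≤ m := by exact_mod_cast h2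
  rcases le_or_gt S (((m : ℝ) + 1) / 2 + 1) with h | h
  · exact hA.trans (rpow_aux (by linarith) hS0 h)
  · have h3 := prod_le_one m hc l hl hp hp1
    refine h3.trans ?_
    have hSpos : 0 < S := by linarith
    have hAm : A m 1 = ((m : ℝ) + 1) / (m + 3) - 1 / (2 * m + 3) := by
      simp only [A, one_pow]; ring
    have ha : 2 / ((m : ℝ) + 3) ≤ A m 1 := by
      rw [hAm, le_sub_iff_add_le, div_add_div _ _ (by positivity) (by positivity),
        div_le_div_iff₀ (by positivity) (by positivity)]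
      have q : 0 ≤ 2 * (m : ℝ) ^ 2 - 6 := by nlinarith
      nlinarith [mul_nonneg (by linarith : 0 ≤ (m : ℝ) + 3) q]
    have hs : 1 + (∑ i, l i).re = (m + 2) - S := by rw [hS]; ring
    rw [hs]
    have hs0 : 0 ≤ ((m : ℝ) + 2) - S := by rw [← hs]; linarith
    have hlog : 1 - (((m : ℝ) + 2)) / S ≤ Real.log (S / (m + 2)) := by
      have := Real.one_sub_inv_le_log_of_pos (x := S / (m + 2)) (by positivity)
      rwa [inv_div] at this
    have h5 : -(((m : ℝ) + 2 - S) * A m 1) ≤ Real.log (S / (m + 2)) := by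
      refine le_trans ?_ hlog
      have e1 : 1 - ((m : ℝ) + 2) / S = -(((m : ℝ) + 2 - S) * (1 / S)) := by
        field_simp; ring
      rw [e1, neg_le_neg_iff]
      refine mul_le_mul_of_nonneg_left ?_ hs0
      refine le_trans ?_ ha
      rw [div_le_div_iff₀ hSpos (by positivity)]
      linarith
    calc ((m : ℝ) + 2) * Real.exp (-(((m : ℝ) + 2 - S) * A m 1))
        ≤ ((m : ℝ) + 2) * Real.exp (Real.log (S / (m + 2))) :=
          mul_le_mul_of_nonneg_left (Real.exp_le_exp.2 h5) (by positivity)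
      _ = S := by
          rw [Real.exp_log (by positivity)]
          field_simp

end Pool.Agent.H206R3.NB
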