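import Mathlib

set_option autoImplicit false

open Matrix Finset

namespace Pool.Agent.H206R3.Neu

theorem diag_nonneg {n : ℕ} (M : Matrix (Fin n) (Fin n) ℝ)
    (hoff : ∀ i j, i ≠ j → M i j ≤ 0) (hrow : ∀ i, 0 ≤ ∑ j, M i j) (i : Fin n) : 0 ≤ M i i := by
  have h := hrow i
  rw [← Finset.add_sum_erase _ _ (Finset.mem_univ i)] at h
  have h2 : ∑ x ∈ Finset.univ.erase i, M i x ≤ 0 :=
    Finset.sum_nonpos fun j hj => hoff i j (Finset.ne_of_mem_erase hj).symm
  linarith

/-- A matrix with nonpositive off-diagonal entries and nonnegative row sums has determinant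
between `0` and the product of its diagonal entries. -/
theorem det_bound : ∀ (n : ℕ) (M : Matrix (Fin n) (Fin n) ℝ),
    (∀ i j, i ≠ j → M i j ≤ 0) → (∀ i, 0 ≤ ∑ j, M i j) →
    0 ≤ M.det ∧ M.det ≤ ∏ i, M i i := by
  intro n
  induction n with
  | zero => intro M _ _; simp
  | succ n ih =>
    intro M hoff hrow
    set N0 : Matrix (Fin n) (Fin n) ℝ := fun i k => M i.succ k.succ with hN0
    set N : Fin n → Matrix (Fin n) (Fin n) ℝ :=
      fun j i k => M i.succ k.succ + if k = j then M i.succ 0 else 0 with hN
    have hadj0 : M.adjugate 0 0 = N0.det := by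
      rw [adjugate_apply, det_succ_row_zero, Fin.sum_univ_succ]
      rw [Finset.sum_eq_zero]
      · simp only [Fin.val_zero, pow_zero, updateRow_self, Pi.single_eq_same, one_mul, mul_one,
          add_zero]
        congr 1
      · intro k _
        rw [updateRow_self, Pi.single_eq_of_ne (Fin.succ_ne_zero k)]
        ring
    have hadjj : ∀ j : Fin n, M.adjugate j.succ 0 = N0.det - (N j).det := by
      intro j
      have h1 : (M.updateRow 0 ((Pi.single 0 1 - Pi.single j.succ 1 : Fin (n+1) → ℝ) +
          Pi.single j.succ 1)).det =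
          (M.updateRow 0 (Pi.single 0 1 - Pi.single j.succ 1 : Fin (n+1) → ℝ)).det +
          (M.updateRow 0 (Pi.single j.succ 1 : Fin (n+1) → ℝ)).det := det_updateRow_add _ _ _ _
      rw [sub_add_cancel, ← adjugate_apply, ← adjugate_apply, hadj0] at h1
      set U := M.updateRow 0 (Pi.single 0 1 - Pi.single j.succ 1 : Fin (n+1) → ℝ) with hU
      have h2 : U.det = (N j).det := by
        rw [← det_updateCol_add_self U (Fin.succ_ne_zero j), det_succ_row_zero, Fin.sum_univ_succ]
        rw [Finset.sum_eq_zero]
        · have e1 : (U.updateCol j.succ fun k => U k j.succ + U k 0) 0 0 = 1 := by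
            rw [updateCol_ne (Fin.succ_ne_zero j).symm, hU, updateRow_self]
            simp [Pi.single_apply, (Fin.succ_ne_zero j).symm]
          rw [e1]
          simp only [Fin.val_zero, pow_zero, one_mul, add_zero, mul_one]
          congr 1
          ext i k
          simp only [submatrix_apply, Fin.zero_succAbove, hN]
          by_cases hk : k = j
          · subst hk
            rw [updateCol_self, hU, updateRow_ne (Fin.succ_ne_zero i)]
            simp
          · rw [updateCol_ne (fun h => hk (Fin.succ_injective _ h)), hU,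
              updateRow_ne (Fin.succ_ne_zero i)]
            simp [hk]
        · intro k _
          have e2 : (U.updateCol j.succ fun k => U k j.succ + U k 0) 0 k.succ = 0 := by
            by_cases hk : k = j
            · subst hk
              rw [updateCol_self, hU, updateRow_self]
              simp [Pi.single_apply, (Fin.succ_ne_zero k).symm, Fin.succ_ne_zero k]
            · rw [updateCol_ne (fun h => hk (Fin.succ_injective _ h)), hU, updateRow_self]
              simp [Pi.single_apply, Fin.succ_ne_zero k, hk]
          rw [e2]; ring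
      rw [← h2]; linarith
    have hdet : M.det = (∑ k, M 0 k) * N0.det + ∑ j : Fin n, (-M 0 j.succ) * (N j).det := by
      rw [det_eq_sum_mul_adjugate_row M 0, Fin.sum_univ_succ, hadj0, Fin.sum_univ_succ]
      simp only [hadjj]
      rw [add_mul, Finset.sum_mul, add_assoc, ← Finset.sum_add_distrib]
      congr 1
      refine Finset.sum_congr rfl fun j _ => ?_
      ring
    -- the smaller matrices are in the class
    have hN0off : ∀ i j, i ≠ j → N0 i j ≤ 0 := fun i j h =>
      hoff _ _ (fun hh => h (Fin.succ_injective _ hh))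
    have hrow' : ∀ i : Fin n, 0 ≤ M i.succ 0 + ∑ k : Fin n, M i.succ k.succ := by
      intro i
      have := hrow i.succ
      rwa [Fin.sum_univ_succ] at this
    have hcol : ∀ i : Fin n, M i.succ 0 ≤ 0 := fun i => hoff _ _ (Fin.succ_ne_zero i)
    have hN0row : ∀ i, 0 ≤ ∑ j, N0 i j := by
      intro i
      have h1 := hrow' i
      have h2 := hcol i
      simp only [hN0]
      linarith
    have hNoff : ∀ j, ∀ i k, i ≠ k → N j i k ≤ 0 := by
      intro j i k h
      have h1 : M i.succ k.succ ≤ 0 := hoff _ _ (fun hh => h (Fin.succ_injective _ hh))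
      simp only [hN]
      split_ifs
      · linarith [hcol i]
      · linarith
    have hNrow : ∀ j, ∀ i, 0 ≤ ∑ k, N j i k := by
      intro j i
      simp only [hN]
      rw [Finset.sum_add_distrib, Finset.sum_ite_eq' Finset.univ j, if_pos (Finset.mem_univ _)]
      linarith [hrow' i]
    obtain ⟨a0, a1⟩ := ih N0 hN0off hN0row
    have hD : ∀ j, (N j).det ≤ ∏ i : Fin n, M i.succ i.succ := by
      intro j
      refine (ih (N j) (hNoff j) (hNrow j)).2.trans ?_
      refine Finset.prod_le_prod (fun i _ => diag_nonneg _ (hNoff j) (hNrow j) i) fun i _ => ?_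
      simp only [hN]
      split_ifs
      · linarith [hcol i]
      · linarith
    have hneg : ∀ j : Fin n, 0 ≤ -M 0 j.succ := fun j => by
      have := hoff 0 j.succ (Fin.succ_ne_zero j).symm
      linarith
    constructor
    · rw [hdet]
      refine add_nonneg (mul_nonneg (hrow 0) a0) (Finset.sum_nonneg fun j _ => ?_)
      exact mul_nonneg (hneg j) (ih (N j) (hNoff j) (hNrow j)).1
    · rw [hdet, Fin.prod_univ_succ]
      have e : M 0 0 = (∑ k, M 0 k) + ∑ j : Fin n, (-M 0 j.succ) := by
        rw [Fin.sum_univ_succ, Finset.sum_neg_distrib]; ring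
      have h3 : ∑ j : Fin n, (-M 0 j.succ) * (N j).det ≤
          (∑ j : Fin n, (-M 0 j.succ)) * ∏ i : Fin n, M i.succ i.succ := by
        rw [Finset.sum_mul]
        exact Finset.sum_le_sum fun j _ => mul_le_mul_of_nonneg_left (hD j) (hneg j)
      rw [e, add_mul]
      exact add_le_add (mul_le_mul_of_nonneg_left a1 (hrow 0)) h3

/-- Weighted version. -/
theorem det_bound' {n : ℕ} (M : Matrix (Fin n) (Fin n) ℝ) (v : Fin n → ℝ)
    (hoff : ∀ i j, i ≠ j → M i j ≤ 0) (hv : ∀ i, 0 < v i) (hrow : ∀ i, 0 ≤ ∑ j, M i j * v j) :
    M.det ≤ ∏ i, M i i := by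
  have h := (det_bound n (of fun i j => v j * M i j) (fun i j hij => by
      simp only [of_apply]
      exact mul_nonpos_of_nonneg_of_nonpos (hv j).le (hoff i j hij)) (fun i => by
      simp only [of_apply]
      simpa [mul_comm] using hrow i)).2
  rw [det_mul_row] at h
  simp only [of_apply] at h
  rw [Finset.prod_mul_distrib] at h
  exact le_of_mul_le_mul_left h (Finset.prod_pos fun i _ => hv i)

/-- Derivative of the characteristic polynomial. -/
theorem deriv_charpoly {n : ℕ} (A : Matrix (Fin n) (Fin n) ℝ) (x : ℝ)
    (hx : (scalar (Fin n) x - A).det ≠ 0) :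
    A.charpoly.derivative.eval x = ∑ r, (scalar (Fin n) x - A).adjugate r r := by
  set G := scalar (Fin n) x - A with hG
  have hp : A.charpoly.comp (Polynomial.X + Polynomial.C x) =
      Polynomial.C G.det * det (1 + (Polynomial.X : Polynomial ℝ) • (G⁻¹).map Polynomial.C) := by
    refine Polynomial.funext fun y => ?_
    rw [Polynomial.eval_comp, Polynomial.eval_mul, Polynomial.eval_C, eval_charpoly]
    have h1 : Polynomial.eval y (det (1 + (Polynomial.X : Polynomial ℝ) • (G⁻¹).map Polynomial.C)) =
        det (1 + y • G⁻¹) := by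
      rw [← Polynomial.coe_evalRingHom, RingHom.map_det]
      congr 1
      ext i j
      simp only [RingHom.mapMatrix_apply, map_apply, Matrix.add_apply, Matrix.smul_apply,
        smul_eq_mul, Polynomial.coe_evalRingHom, Polynomial.eval_add, Polynomial.eval_mul,
        Polynomial.eval_X, Polynomial.eval_C]
      by_cases h : i = j
      · subst h; simp
      · simp [h]
    rw [h1, ← det_mul, mul_add, mul_one, Matrix.mul_smul, mul_nonsing_inv G (Ne.isUnit hx)]
    congr 1
    ext i j
    simp only [Polynomial.eval_add, Polynomial.eval_X, Polynomial.eval_C, hG, Matrix.sub_apply,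
      Matrix.add_apply, Matrix.smul_apply, smul_eq_mul, scalar_apply, diagonal_apply, one_apply]
    split_ifs <;> ring
  have hd := congrArg (fun q => (Polynomial.derivative q).eval 0) hp
  simp only [Polynomial.derivative_comp, Polynomial.derivative_add, Polynomial.derivative_X,
    Polynomial.derivative_C, add_zero, Polynomial.eval_mul, Polynomial.eval_comp,
    Polynomial.eval_add, Polynomial.eval_X, Polynomial.eval_C, zero_add, Polynomial.eval_one,
    Polynomial.derivative_C_mul, one_mul, mul_one, derivative_det_one_add_X_smul] at hd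
  rw [hd, Matrix.inv_def, trace_smul, smul_eq_mul, ← mul_assoc,
    Ring.mul_inverse_cancel _ (Ne.isUnit hx), one_mul]
  rfl

end Pool.Agent.H206R3.Neu
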