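import Pool.Agent.H206R3.Neu

set_option autoImplicit false

open Matrix Finset Filter Topology
open scoped NNReal ENNReal

namespace Pool.Agent.H206R3.Neu

/-- If all eigenvalues of a nonnegative matrix have modulus at most one, and `1 < x`, some power
has all row sums smaller than the power of `x`. -/
theorem exists_pow {n : ℕ} (A : Matrix (Fin (n + 1)) (Fin (n + 1)) ℝ)
    (hroots : ∀ z ∈ (A.charpoly.map (algebraMap ℝ ℂ)).roots, ‖z‖ ≤ 1) (x : ℝ) (hx : 1 < x) :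
    ∃ m : ℕ, 0 < m ∧ ∀ i, ∑ j, (A ^ m) i j ≤ x ^ m := by
  letI : NormedRing (Matrix (Fin (n + 1)) (Fin (n + 1)) ℂ) := Matrix.linftyOpNormedRing
  letI : NormedAlgebra ℂ (Matrix (Fin (n + 1)) (Fin (n + 1)) ℂ) := Matrix.linftyOpNormedAlgebra
  haveI : CompleteSpace (Matrix (Fin (n + 1)) (Fin (n + 1)) ℂ) := FiniteDimensional.complete ℂ _
  set B : Matrix (Fin (n + 1)) (Fin (n + 1)) ℂ := A.map (algebraMap ℝ ℂ) with hB
  obtain ⟨y, hy⟩ : ∃ y : ℝ≥0, (y : ℝ) = x := ⟨⟨x, by linarith⟩, rfl⟩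
  have hspec : ∀ z ∈ spectrum ℂ B, ‖z‖₊ < y := by
    intro z hz
    rw [mem_spectrum_iff_isRoot_charpoly, hB, charpoly_map] at hz
    have h := hroots z ((Polynomial.mem_roots
      ((charpoly_monic A).map (algebraMap ℝ ℂ)).ne_zero).2 hz)
    rw [← NNReal.coe_lt_coe, hy, coe_nnnorm]
    exact h.trans_lt hx
  have hsr := spectrum.spectralRadius_lt_of_forall_lt B hspec
  have hlim := spectrum.pow_nnnorm_pow_one_div_tendsto_nhds_spectralRadius B
  have hev := (hlim.eventually (gt_mem_nhds hsr)).and (eventually_gt_atTop 0)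
  obtain ⟨m, hm, hm0⟩ := hev.exists
  refine ⟨m, hm0, fun i => ?_⟩
  have h1 : (‖B ^ m‖₊ : ℝ≥0∞) < (y : ℝ≥0∞) ^ (m : ℝ) := by
    have := ENNReal.rpow_lt_rpow hm (show (0:ℝ) < m by exact_mod_cast hm0)
    rwa [← ENNReal.rpow_mul, one_div, inv_mul_cancel₀ (by exact_mod_cast hm0.ne'),
      ENNReal.rpow_one] at this
  rw [ENNReal.rpow_natCast, ← ENNReal.coe_pow, ENNReal.coe_lt_coe] at h1
  have h2 : ‖B ^ m‖ < x ^ m := by
    have := NNReal.coe_lt_coe.2 h1
    rw [NNReal.coe_pow, hy, coe_nnnorm] at this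
    exact this
  have h3 : (∑ j, ‖(B ^ m) i j‖₊ : ℝ≥0) ≤ ‖B ^ m‖₊ := by
    rw [linfty_opNNNorm_def]
    exact Finset.le_sup (f := fun i => ∑ j, ‖(B ^ m) i j‖₊) (Finset.mem_univ i)
  have h4 : ∑ j, ‖(B ^ m) i j‖ ≤ ‖B ^ m‖ := by
    have := NNReal.coe_le_coe.2 h3
    push_cast at this
    exact this
  have h5 : B ^ m = (A ^ m).map (algebraMap ℝ ℂ) := by
    rw [hB, ← RingHom.mapMatrix_apply, ← RingHom.mapMatrix_apply, map_pow]
  calc ∑ j, (A ^ m) i j ≤ ∑ j, ‖(B ^ m) i j‖ := by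
        refine Finset.sum_le_sum fun j _ => ?_
        rw [h5]
        simp only [map_apply, Complex.coe_algebraMap, Complex.norm_real, Real.norm_eq_abs]
        exact le_abs_self _
    _ ≤ ‖B ^ m‖ := h4
    _ ≤ x ^ m := h2.le

theorem pow_nonneg' {N : ℕ} (A : Matrix (Fin N) (Fin N) ℝ) (hA : ∀ i j, 0 ≤ A i j) (k : ℕ) :
    ∀ i j, 0 ≤ (A ^ k) i j := by
  induction k with
  | zero => intro i j; rw [pow_zero, one_apply]; split_ifs <;> norm_num
  | succ k ih =>
    intro i j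
    rw [pow_succ, mul_apply]
    exact Finset.sum_nonneg fun l _ => mul_nonneg (ih i l) (hA l j)

theorem exists_v {n : ℕ} (A : Matrix (Fin (n + 1)) (Fin (n + 1)) ℝ) (hA : ∀ i j, 0 ≤ A i j)
    (hroots : ∀ z ∈ (A.charpoly.map (algebraMap ℝ ℂ)).roots, ‖z‖ ≤ 1) (x : ℝ) (hx : 1 < x) :
    ∃ v : Fin (n + 1) → ℝ, (∀ i, 0 < v i) ∧ ∀ i, ∑ j, A i j * v j ≤ x * v i := by
  obtain ⟨m, hm0, hm⟩ := exists_pow A hroots x hx
  have hx0 : 0 < x := by linarith
  set w : ℕ → Fin (n + 1) → ℝ := fun k i => ∑ j, (A ^ k) i j with hw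
  have hw0 : ∀ k i, 0 ≤ w k i := fun k i => Finset.sum_nonneg fun j _ => pow_nonneg' A hA k i j
  have hw1 : ∀ i, w 0 i = 1 := by
    intro i
    simp [hw, one_apply]
  have hwS : ∀ k i, ∑ j, A i j * w k j = w (k + 1) i := by
    intro k i
    simp only [hw, pow_succ', mul_apply, Finset.mul_sum]
    exact Finset.sum_comm
  refine ⟨fun i => ∑ k ∈ Finset.range m, w k i / x ^ k, fun i => ?_, fun i => ?_⟩
  · refine Finset.sum_pos' (fun k _ => div_nonneg (hw0 k i) (pow_nonneg hx0.le k))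
      ⟨0, Finset.mem_range.2 hm0, ?_⟩
    rw [hw1]; norm_num
  · have e1 : ∑ j, A i j * ∑ k ∈ Finset.range m, w k j / x ^ k =
        x * ∑ k ∈ Finset.range m, w (k + 1) i / x ^ (k + 1) := by
      simp only [Finset.mul_sum]
      rw [Finset.sum_comm]
      refine Finset.sum_congr rfl fun k _ => ?_
      rw [← hwS k i, Finset.sum_div, Finset.mul_sum]
      refine Finset.sum_congr rfl fun j _ => ?_
      have : x ^ k ≠ 0 := (pow_pos hx0 k).ne'
      rw [pow_succ]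
      field_simp
    rw [e1]
    refine mul_le_mul_of_nonneg_left ?_ hx0.le
    have e2 := Finset.sum_range_succ (fun k => w k i / x ^ k) m
    have e3 := Finset.sum_range_succ' (fun k => w k i / x ^ k) m
    have e4 : w m i / x ^ m ≤ 1 := by
      rw [div_le_one (pow_pos hx0 m)]
      exact hm i
    have e5 : w 0 i / x ^ 0 = 1 := by rw [hw1]; norm_num
    linarith

end Pool.Agent.H206R3.Neu
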