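import Pool.Agent.H376R3.PC.Defs

/-!
# Task PC4 of helper376 (MP_f23337_gt): heights and cyclic subgroups of an abelian group
-/

set_option autoImplicit false

universe u

namespace Pool.Agent.H206R3.PC4

open Cardinal Pool.Agent.H376R3.PC

section abstract_part

variable {G : Type u} [AddCommGroup G] {p h : ℕ} {B : Type u} {κ : B → ℕ} {b : B → G}

/-- The height lemma. -/
theorem height (hκ : ∀ w, κ w < h) (hb : ∀ w, p ^ (κ w + 1) • b w = 0)
    (hind : ∀ k, k < h → ∀ (s : Finset B) (d : B → ℤ), (∀ w ∈ s, κ w = k) →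
      (∃ g : G, ∑ w ∈ s, d w • p ^ k • b w = p ^ (k + 1) • g) → ∀ w ∈ s, (p : ℤ) ∣ d w)
    (c : B →₀ ℤ) :
    ∀ m, m ≤ h → (∃ g : G, (c.sum fun w n => n • b w) = p ^ m • g) →
      ∀ w, ((p ^ min m (κ w + 1) : ℕ) : ℤ) ∣ c w := by
  intro m
  induction m with
  | zero => intro _ _ w; simp
  | succ m ih =>
    rintro hm ⟨g, hg⟩ w
    have ih' := ih (by omega) ⟨p • g, by rw [hg, pow_succ, mul_smul]⟩
    rcases Nat.lt_or_ge (κ w) m with hlt | hge
    · have : min (m + 1) (κ w + 1) = min m (κ w + 1) := by omega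
      rw [this]; exact ih' w
    have key : ∀ j, ∀ w, m ≤ κ w → h ≤ κ w + j → ((p ^ (m + 1) : ℕ) : ℤ) ∣ c w := by
      intro j
      induction j with
      | zero => intro w _ h2; exact absurd (hκ w) (by omega)
      | succ j ihj =>
        intro w0 h1 h2
        rcases Nat.lt_or_ge (κ w0 + j) h with h3 | h3
        swap
        · exact ihj w0 h1 h3
        classical
        set k := κ w0 with hk
        have hkh : k < h := hκ w0
        -- pieces
        have hpm : ∀ w, m ≤ κ w → ∃ d : ℤ, c w = (p : ℤ) ^ m * d := by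
          intro w hw
          have := ih' w
          rw [show min m (κ w + 1) = m by omega] at this
          obtain ⟨d, hd⟩ := this
          exact ⟨d, by rw [hd]; push_cast; ring⟩
        have hpm1 : ∀ w, k < κ w → ∃ d : ℤ, c w = (p : ℤ) ^ (m + 1) * d := by
          intro w hw
          obtain ⟨d, hd⟩ := ihj w (by omega) (by omega)
          exact ⟨d, by rw [hd]; push_cast; ring⟩
        choose! d hd using hpm
        choose! e he using hpm1
        have hsum : ∑ w ∈ c.support, (p ^ (k - m)) • (c w • b w) = p ^ (k + 1) • g := by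
          rw [← Finset.smul_sum]
          have : ∑ w ∈ c.support, c w • b w = c.sum fun w n => n • b w := rfl
          rw [this, hg, smul_smul, ← pow_add]
          congr 2; omega
        have hterm : ∀ w ∈ c.support, (p ^ (k - m)) • (c w • b w) =
            (if κ w = k then d w • p ^ k • b w else 0) +
              p ^ (k + 1) • (if k < κ w then e w • b w else 0) := by
          intro w _
          rcases lt_trichotomy (κ w) k with h4 | h4 | h4
          · rw [if_neg (by omega), if_neg (by omega), smul_zero, add_zero]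
            rcases Nat.lt_or_ge (κ w) m with h5 | h5
            · have := ih' w
              rw [show min m (κ w + 1) = κ w + 1 by omega] at this
              obtain ⟨t, ht⟩ := this
              rw [ht, mul_comm, mul_smul, natCast_zsmul, hb, smul_zero, smul_zero]
            · rw [hd w h5, mul_comm, mul_smul, smul_comm]
              have : (p ^ (k - m)) • ((p : ℤ) ^ m) • b w = 0 := by
                rw [← Nat.cast_pow, natCast_zsmul, smul_smul, ← pow_add,
                  show k - m + m = (k - (κ w + 1)) + (κ w + 1) by omega, pow_add, mul_smul, hb,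
                  smul_zero]
              rw [this, smul_zero]
          · rw [if_pos h4, if_neg (by omega), smul_zero, add_zero, hd w (by omega), mul_comm,
              mul_smul, smul_comm]
            congr 1
            rw [← Nat.cast_pow, natCast_zsmul, smul_smul, ← pow_add]
            congr 2; omega
          · rw [if_neg (by omega), if_pos h4, zero_add, he w h4, mul_comm, mul_smul, smul_comm,
              smul_comm (p ^ (k + 1)) (e w)]
            congr 1
            rw [← Nat.cast_pow, natCast_zsmul, smul_smul, ← pow_add]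
            congr 2; omega
        rw [Finset.sum_congr rfl hterm, Finset.sum_add_distrib, ← Finset.smul_sum,
          ← Finset.sum_filter] at hsum
        by_cases hw0 : w0 ∈ c.support
        swap
        · rw [Finsupp.notMem_support_iff] at hw0; rw [hw0]; exact dvd_zero _
        have hdd := hind k hkh (c.support.filter fun w => κ w = k) d
          (fun w hw => (Finset.mem_filter.1 hw).2)
          ⟨g - ∑ w ∈ c.support, (if k < κ w then e w • b w else 0), by
            rw [smul_sub, ← hsum]; abel⟩ w0 (Finset.mem_filter.2 ⟨hw0, rfl⟩)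
        obtain ⟨t, ht⟩ := hdd
        refine ⟨t, ?_⟩
        rw [hd w0 h1, ht]; push_cast; ring
    rw [show min (m + 1) (κ w + 1) = m + 1 by omega]
    exact key h w hge (by omega)

end abstract_part

section concrete

variable (G : Type u) [AddCommGroup G] (p : ℕ)

/-- The `p`-torsion of exponent `p`. -/
def T : AddSubgroup G where
  carrier := {x | p • x = 0}
  zero_mem' := by simp
  add_mem' := by
    intro a b ha hb
    simp only [Set.mem_ofPred_eq, smul_add] at *
    rw [ha, hb, add_zero]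
  neg_mem' := by
    intro a ha
    simp only [Set.mem_ofPred_eq, smul_neg] at *
    rw [ha, neg_zero]

instance instModT : Module (ZMod p) (T G p) :=
  AddCommGroup.zmodModule (by rintro ⟨x, hx⟩; ext; exact hx)

theorem coe_smul_T (a : ZMod p) [NeZero p] (x : T G p) : ((a • x : T G p) : G) = a.val • (x : G) := by
  conv_lhs => rw [← ZMod.natCast_zmod_val a]
  rw [Nat.cast_smul_eq_nsmul]
  rfl

theorem coe_int_smul_T (n : ℤ) (x : T G p) :
    (((n : ZMod p) • x : T G p) : G) = n • (x : G) := by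
  rw [Int.cast_smul_eq_zsmul]
  rfl

/-- `V_k` as a subspace. -/
def Vs (k : ℕ) : Submodule (ZMod p) (T G p) :=
  AddSubgroup.toZModSubmodule p
    { carrier := {x | ∃ g : G, (x : G) = p ^ k • g}
      zero_mem' := ⟨0, by simp⟩
      add_mem' := by
        rintro a b ⟨g, hg⟩ ⟨g', hg'⟩
        exact ⟨g + g', by push_cast; rw [hg, hg', smul_add]⟩
      neg_mem' := by
        rintro a ⟨g, hg⟩
        exact ⟨-g, by push_cast; rw [hg, smul_neg]⟩ }

theorem mem_Vs {k : ℕ} {x : T G p} : x ∈ Vs G p k ↔ ∃ g : G, (x : G) = p ^ k • g := Iff.rfl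

theorem mem_V_of {k : ℕ} {x : T G p} (hx : x ∈ Vs G p k) : (x : G) ∈ V (G := G) p k :=
  ⟨x.2, (mem_Vs G p).1 hx⟩

theorem Vs_anti {k : ℕ} : Vs G p (k + 1) ≤ Vs G p k := by
  rintro x ⟨g, hg⟩
  exact ⟨p • g, by rw [hg, pow_succ, mul_smul]⟩

variable [Fact p.Prime]

theorem exists_W (k : ℕ) : ∃ W : Submodule (ZMod p) (T G p),
    W ≤ Vs G p k ∧ W ⊓ Vs G p (k + 1) = ⊥ ∧ W ⊔ Vs G p (k + 1) = Vs G p k := by
  obtain ⟨C, hC⟩ := Submodule.exists_isCompl (Vs G p (k + 1))
  refine ⟨C ⊓ Vs G p k, inf_le_right, ?_, ?_⟩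
  · have := hC.inf_eq_bot
    rw [eq_bot_iff, ← this]
    intro x hx
    exact ⟨hx.2, hx.1.1⟩
  · rw [sup_comm, ← sup_inf_assoc_of_le C (Vs_anti G p), hC.sup_eq_top, top_inf_eq]

/-- A complement of `V_{k+1}` in `V_k`. -/
noncomputable def W (k : ℕ) : Submodule (ZMod p) (T G p) := (exists_W G p k).choose

theorem W_le (k : ℕ) : W G p k ≤ Vs G p k := (exists_W G p k).choose_spec.1
theorem W_inf (k : ℕ) : W G p k ⊓ Vs G p (k + 1) = ⊥ := (exists_W G p k).choose_spec.2.1
theorem W_sup (k : ℕ) : W G p k ⊔ Vs G p (k + 1) = Vs G p k := (exists_W G p k).choose_spec.2.2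

/-- The index type of level `k`. -/
abbrev I (k : ℕ) : Type u := Module.Basis.ofVectorSpaceIndex (ZMod p) (W G p k)

/-- The basis of `W_k`. -/
noncomputable def bas (k : ℕ) : Module.Basis (I G p k) (ZMod p) (W G p k) :=
  Module.Basis.ofVectorSpace (ZMod p) (W G p k)

theorem exists_root (k : ℕ) (i : I G p k) : ∃ g : G, (((bas G p k i : W G p k) : T G p) : G) = p ^ k • g :=
  (mem_Vs G p).1 (W_le G p k (bas G p k i).2)

/-- The root of a basis element. -/
noncomputable def root (k : ℕ) (i : I G p k) : G := (exists_root G p k i).choose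

theorem root_spec (k : ℕ) (i : I G p k) :
    p ^ k • root G p k i = (((bas G p k i : W G p k) : T G p) : G) :=
  ((exists_root G p k i).choose_spec).symm

variable (h : ℕ)

abbrev Bt : Type u := Σ k : Fin h, I G p k

/-- The inclusion of level `k`. -/
def lev (k : Fin h) (i : I G p k) : Bt G p h := ⟨k, i⟩

theorem lev_injective (k : Fin h) : Function.Injective (lev G p h k) := by
  intro i j hij
  unfold lev at hij
  simpa using hij

theorem main_ind' (k : Fin h) (s : Finset (Bt G p h)) (d : Bt G p h → ℤ)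
    (hs : ∀ w ∈ s, w.1 = k)
    (hg : ∃ g : G, ∑ w ∈ s, d w • p ^ (k : ℕ) • root G p w.1 w.2 = p ^ ((k : ℕ) + 1) • g) :
    ∀ w ∈ s, (p : ℤ) ∣ d w := by
  classical
  obtain ⟨g, hg⟩ := hg
  have hinj : Set.InjOn (lev G p h k) (lev G p h k ⁻¹' (s : Set (Bt G p h))) :=
    (lev_injective G p h k).injOn
  have hsum := Finset.sum_preimage (lev G p h k) s hinj
    (fun w => d w • p ^ (k : ℕ) • root G p w.1 w.2) (by
      rintro ⟨j, i⟩ hw hn
      exfalso
      apply hn
      have : j = k := hs _ hw
      subst this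
      exact ⟨i, rfl⟩)
  set s' := s.preimage (lev G p h k) hinj with hs'
  set y : W G p k := ∑ i ∈ s', ((d (lev G p h k i) : ℤ) : ZMod p) • bas G p k i with hy
  have hyG : ((y : T G p) : G) = p ^ ((k : ℕ) + 1) • g := by
    rw [← hg, ← hsum, hy]
    rw [Submodule.coe_sum, AddSubgroup.val_finset_sum]
    refine Finset.sum_congr rfl fun i _ => ?_
    rw [Submodule.coe_smul, coe_int_smul_T, ← root_spec]
    rfl
  have hy0 : y = 0 := by
    have : (y : T G p) ∈ W G p k ⊓ Vs G p (k + 1) := ⟨y.2, (mem_Vs G p).2 ⟨g, hyG⟩⟩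
    rw [W_inf, Submodule.mem_bot] at this
    exact Subtype.ext this
  have hli := linearIndependent_iff'.1 (bas G p k).linearIndependent s'
    (fun i => ((d (lev G p h k i) : ℤ) : ZMod p)) hy0
  rintro ⟨j, i⟩ hw
  have : j = k := hs _ hw
  subst this
  have := hli i (by rw [hs', Finset.mem_preimage]; exact hw)
  exact (ZMod.intCast_zmod_eq_zero_iff_dvd _ _).1 this

theorem main_ind (k : ℕ) (hk : k < h) (s : Finset (Bt G p h)) (d : Bt G p h → ℤ)
    (hs : ∀ w ∈ s, (w.1 : ℕ) = k)
    (hg : ∃ g : G, ∑ w ∈ s, d w • p ^ k • root G p w.1 w.2 = p ^ (k + 1) • g) :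
    ∀ w ∈ s, (p : ℤ) ∣ d w :=
  main_ind' G p h ⟨k, hk⟩ s d (fun w hw => Fin.ext (hs w hw)) hg

theorem span_level (k : ℕ) (hk : k < h) (x : W G p k) :
    ((x : T G p) : G) ∈ Submodule.span ℤ
      (Set.range fun w : Bt G p h => (p ^ (w.1 : ℕ)) • root G p w.1 w.2) := by
  have hx : x ∈ Submodule.span (ZMod p) (Set.range (bas G p k)) := by
    rw [(bas G p k).span_eq]; trivial
  induction hx using Submodule.span_induction with
  | mem x hx =>
    obtain ⟨i, rfl⟩ := hx
    rw [← root_spec]
    exact Submodule.subset_span ⟨⟨⟨k, hk⟩, i⟩, rfl⟩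
  | zero => simp
  | add x y _ _ hx hy => exact Submodule.add_mem _ hx hy
  | smul a x _ hx =>
    rw [Submodule.coe_smul, coe_smul_T]
    exact nsmul_mem hx _

theorem span_all (x : T G p) : ∀ j, j ≤ h → ∃ v : T G p, v ∈ Vs G p j ∧ ∃ y ∈ Submodule.span ℤ
      (Set.range fun w : Bt G p h => (p ^ (w.1 : ℕ)) • root G p w.1 w.2), (x : G) = y + v := by
  intro j
  induction j with
  | zero => exact fun _ => ⟨x, (mem_Vs G p).2 ⟨x, by simp⟩, 0, Submodule.zero_mem _, by simp⟩
  | succ j ih =>
    intro hj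
    obtain ⟨v, hv, y, hy, hx⟩ := ih (by omega)
    rw [← W_sup] at hv
    obtain ⟨w, hw, v', hv', rfl⟩ := Submodule.mem_sup.1 hv
    refine ⟨v', hv', y + w, Submodule.add_mem _ hy (span_level G p h j (by omega) ⟨w, hw⟩), ?_⟩
    rw [hx]; push_cast; abel

theorem card_W (k : ℕ) : #(W G p k) * #(Vs G p (k + 1)) = #(Vs G p k) := by
  have e : (W G p k × Vs G p (k + 1)) ≃ Vs G p k := by
    refine Equiv.ofBijective (fun q => ⟨(q.1 : T G p) + q.2, by
      rw [← W_sup]; exact Submodule.add_mem_sup q.1.2 q.2.2⟩) ⟨?_, ?_⟩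
    · rintro ⟨a, b⟩ ⟨a', b'⟩ hab
      have h1 : (a : T G p) + b = a' + b' := congrArg Subtype.val hab
      have h2 : (a : T G p) - a' = b' - b := by
        rw [sub_eq_sub_iff_add_eq_add]; rw [h1]; abel
      have h3 : (a : T G p) - a' ∈ W G p k ⊓ Vs G p (k + 1) :=
        ⟨Submodule.sub_mem _ a.2 a'.2, by rw [h2]; exact Submodule.sub_mem _ b'.2 b.2⟩
      rw [W_inf, Submodule.mem_bot] at h3
      have h4 : (a : T G p) = a' := sub_eq_zero.1 h3
      have h5 : (b : T G p) = b' := by rw [h4] at h1; exact add_left_cancel h1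
      exact Prod.ext (Subtype.ext h4) (Subtype.ext h5)
    · rintro ⟨v, hv⟩
      rw [← W_sup] at hv
      obtain ⟨w, hw, v', hv', rfl⟩ := Submodule.mem_sup.1 hv
      exact ⟨(⟨w, hw⟩, ⟨v', hv'⟩), rfl⟩
  rw [Cardinal.mul_def, Cardinal.mk_congr e]

theorem card_V (k : ℕ) : #(V (G := G) p k) = #(Vs G p k) := by
  refine Cardinal.mk_congr ⟨fun x => ⟨⟨x.1, x.2.1⟩, x.2.2⟩, fun x => ⟨((x : T G p) : G), mem_V_of G p x.2⟩,
    fun x => rfl, fun x => rfl⟩

theorem card_level (k : ℕ) (hk : k < h) :
    #{w : Bt G p h // (w.1 : ℕ) = k} = #(I G p k) := by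
  refine Cardinal.mk_congr ⟨fun w => w.2 ▸ w.1.2, fun i => ⟨⟨⟨k, hk⟩, i⟩, rfl⟩, ?_, ?_⟩
  · rintro ⟨⟨⟨j, hj⟩, i⟩, h1⟩
    simp only at h1
    subst h1
    rfl
  · intro i; rfl

theorem card_I_le (k : ℕ) : #(I G p k) ≤ #(Vs G p k) :=
  Cardinal.mk_le_of_injective (f := fun i => (⟨bas G p k i, W_le G p k (bas G p k i).2⟩ : Vs G p k))
    (by
      intro i j hij
      have h1 := Subtype.mk.inj hij
      exact (bas G p k).injective (Subtype.ext h1))

theorem card_I_eq (k : ℕ) (h1 : ℵ₀ < #(Vs G p k)) (h2 : #(Vs G p (k + 1)) < #(Vs G p k)) :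
    #(I G p k) = #(Vs G p k) := by
  have hW : #(W G p k) = #(Vs G p k) := by
    have h3 := card_W G p k
    have h4 : #(W G p k) ≤ #(Vs G p k) :=
      Cardinal.mk_le_of_injective (Submodule.inclusion_injective (W_le G p k))
    rcases lt_or_eq_of_le h4 with h5 | h5
    · exfalso
      have := Cardinal.mul_lt_of_lt h1.le h5 h2
      rw [h3] at this
      exact lt_irrefl _ this
    · exact h5
  have e : W G p k ≃ (I G p k →₀ ZMod p) := (bas G p k).repr.toEquiv
  have hc := Cardinal.mk_congr e
  have : Infinite (I G p k) := by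
    by_contra hfin
    rw [not_infinite_iff_finite] at hfin
    have : Finite (I G p k →₀ ZMod p) := Finite.of_equiv (I G p k → ZMod p) Finsupp.equivFunOnFinite.symm
    have h6 : #(W G p k) < ℵ₀ := by rw [hc]; exact Cardinal.lt_aleph0_of_finite _
    rw [hW] at h6
    exact lt_asymm h6 h1
  rw [Cardinal.mk_finsupp_lift_of_infinite] at hc
  rw [← hW, hc, Cardinal.lift_uzero]
  symm
  apply max_eq_left
  refine le_trans (le_of_lt ?_) (Cardinal.aleph0_le_mk _)
  rw [Cardinal.lift_lt_aleph0]
  exact Cardinal.lt_aleph0_of_finite _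

end concrete

/-- Task PC4 of helper376. -/
theorem pc4 : TaskPC4.{u} := by
  intro G _ p h hp
  have : Fact p.Prime := ⟨hp⟩
  refine ⟨Bt G p h, fun w => w.1, fun w => root G p w.1 w.2, fun w => w.1.2, ?_, ?_, ?_, ?_, ?_⟩
  · intro w
    rw [pow_succ, mul_comm, mul_smul, root_spec]
    exact ((bas G p w.1 w.2 : W G p w.1) : T G p).2
  · refine height (fun w => w.1.2) ?_ (fun k hk s d => main_ind G p h k hk s d)
    intro w
    rw [pow_succ, mul_comm, mul_smul, root_spec]
    exact ((bas G p w.1 w.2 : W G p w.1) : T G p).2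
  · intro x hx
    obtain ⟨v, hv, y, hy, hxy⟩ := span_all G p h ⟨x, hx⟩ h le_rfl
    obtain ⟨c, rfl⟩ := (Finsupp.mem_span_range_iff_exists_finsupp).1 hy
    obtain ⟨g, hg⟩ := (mem_Vs G p).1 hv
    refine ⟨c, g, ?_, ?_⟩
    · rw [← hg]; exact mem_V_of G p hv
    · rw [← hg]
      have hxy' : x = (c.sum fun w n => n • (p ^ (w.1 : ℕ)) • root G p w.1 w.2) + v := hxy
      rw [hxy']
      congr 1
      refine Finsupp.sum_congr fun w _ => ?_
      rw [mul_smul]
      congr 1
      rw [← Nat.cast_pow, natCast_zsmul]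
  · intro k
    rcases Nat.lt_or_ge k h with hk | hk
    · rw [card_level G p h k hk, card_V]; exact card_I_le G p k
    · have : IsEmpty {w : Bt G p h // (w.1 : ℕ) = k} := ⟨fun w => by
        have := w.1.1.2
        have := w.2
        omega⟩
      rw [Cardinal.mk_eq_zero]; exact zero_le
  · intro k hk h1 h2
    rw [card_level G p h k hk, card_V]
    rw [card_V] at h1
    rw [card_V, card_V] at h2
    exact card_I_eq G p k h1 h2

end Pool.Agent.H206R3.PC4
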