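import Mathlib
import Pool.Agent.H206R3.Clebsch

/-! Extension sets for maps from trees, and the folded-cube graph times `K₄`. -/

namespace Pool.Agent.H206R3.Warm

open Pool.Agent.H206R3.Clebsch

/-- `Pset Rel k φ`: the values at the root of relation-preserving maps agreeing with `φ` on
level `k`. -/
def Pset {V : Type*} {d : ℕ} (Rel : V → V → Prop) : ℕ → (List (Fin d) → V) → Set V
  | 0, φ => {φ []}
  | k + 1, φ => {v | ∀ i, ∃ s ∈ Pset Rel k (fun m => φ (i :: m)), Rel v s}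

/-- Relation-preserving maps. -/
def IsH {V : Type*} {d : ℕ} (Rel : V → V → Prop) (φ : List (Fin d) → V) : Prop :=
  ∀ l i, Rel (φ l) (φ (l ++ [i]))

theorem IsH.cons {V : Type*} {d : ℕ} {Rel : V → V → Prop} {φ : List (Fin d) → V} (h : IsH Rel φ)
    (i : Fin d) : IsH Rel (fun m => φ (i :: m)) := fun l j => h (i :: l) j

theorem exists_extension {V : Type*} {d : ℕ} (Rel : V → V → Prop) (k : ℕ) :
    ∀ (φ : List (Fin d) → V), IsH Rel φ → ∀ a ∈ Pset Rel k φ,
      ∃ f : List (Fin d) → V, f [] = a ∧ IsH Rel f ∧ ∀ l : List (Fin d), k ≤ l.length → f l = φ l := by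
  induction k with
  | zero =>
    intro φ hφ a ha
    exact ⟨φ, ha.symm, hφ, fun _ _ => rfl⟩
  | succ k ih =>
    intro φ hφ a ha
    choose s hs hr using ha
    choose f hf0 hf1 hf2 using fun i => ih (fun m => φ (i :: m)) (hφ.cons i) (s i) (hs i)
    refine ⟨fun l => match l with
      | [] => a
      | i :: m => f i m, rfl, ?_, ?_⟩
    · intro l j
      cases l with
      | nil =>
        show Rel a (f j [])
        rw [hf0]
        exact hr j
      | cons i m => exact hf1 i m j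
    · intro l hl
      cases l with
      | nil => simp at hl
      | cons i m => exact hf2 i m (by simpa using hl)

theorem root_mem {V : Type*} {d : ℕ} (Rel : V → V → Prop) (k : ℕ) :
    ∀ (φ : List (Fin d) → V), IsH Rel φ → φ [] ∈ Pset Rel k φ := by
  induction k with
  | zero => intro φ _; rfl
  | succ k ih =>
    intro φ hφ i
    exact ⟨φ [i], ih _ (hφ.cons i), hφ [] i⟩

theorem pset_prod {V W : Type*} {d : ℕ} (R₁ : V → V → Prop) (R₂ : W → W → Prop) (k : ℕ) :
    ∀ (φ : List (Fin d) → V × W) (v : V) (w : W), v ∈ Pset R₁ k (fun l => (φ l).1) →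
      w ∈ Pset R₂ k (fun l => (φ l).2) → (v, w) ∈ Pset (fun a b => R₁ a.1 b.1 ∧ R₂ a.2 b.2) k φ := by
  induction k with
  | zero =>
    intro φ v w hv hw
    have h1 : v = (φ []).1 := hv
    have h2 : w = (φ []).2 := hw
    rw [h1, h2]
    rfl
  | succ k ih =>
    intro φ v w hv hw i
    obtain ⟨s, hs, hr⟩ := hv i
    obtain ⟨t, ht, hr'⟩ := hw i
    exact ⟨(s, t), ih _ s t hs ht, hr, hr'⟩

/-! ### `K₄` -/

theorem four_two : ∀ a b v : Fin 4, ∃ s, s ≠ a ∧ s ≠ b ∧ v ≠ s := by decide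

theorem pset_K4 (k : ℕ) :
    ∀ (φ : List (Fin 2) → Fin 4) (v : Fin 4), v ∈ Pset (fun a b => a ≠ b) (k + 2) φ := by
  induction k with
  | zero =>
    intro φ v i
    obtain ⟨s, h1, h2, h3⟩ := four_two (φ [i, 0]) (φ [i, 1]) v
    refine ⟨s, ?_, h3⟩
    intro j
    refine ⟨φ [i, j], rfl, ?_⟩
    fin_cases j
    · exact h1
    · exact h2
  | succ k ih =>
    intro φ v i
    obtain ⟨s, _, _, h3⟩ := four_two 0 0 v
    exact ⟨s, ih _ s, h3⟩

/-! ### The folded cube -/

theorem pset1_rep (φ : List (Fin 2) → Fin 16) :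
    Rep (Pset R 1 φ) (Nat.land (nbr (φ [0]).1) (nbr (φ [1]).1)) := by
  have h : Pset R 1 φ = {v | R v (φ [0])} ∩ {v | R v (φ [1])} := by
    ext v
    constructor
    · intro hv
      obtain ⟨s, hs, h0⟩ := hv 0
      obtain ⟨t, ht, h1⟩ := hv 1
      have hs' : s = φ [0] := hs
      have ht' : t = φ [1] := ht
      subst hs' ht'
      exact ⟨h0, h1⟩
    · rintro ⟨h0, h1⟩ i
      refine ⟨φ [i], rfl, ?_⟩
      fin_cases i
      · exact h0
      · exact h1
  rw [h]
  exact (rep_nbr _).inter (rep_nbr _)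

theorem mem_idx (x : Fin 16) : x.1 ∈ idx := by
  revert x; decide

theorem pset1_nb (φ : List (Fin 2) → Fin 16) :
    ∃ n ∈ L1, Rep {v | ∃ s ∈ Pset R 1 φ, R v s} n := by
  refine ⟨_, ?_, (pset1_rep φ).nb⟩
  have h := check0
  rw [al_iff] at h
  have h1 := h _ (mem_idx (φ [0]))
  rw [al_iff] at h1
  exact (el_iff _ _).1 (h1 _ (mem_idx (φ [1])))

theorem pset2 (φ : List (Fin 2) → Fin 16) (hφ : IsH R φ) :
    ∃ F : Finset (Fin 16), F.card ≤ 2 ∧ ∀ v, v ∉ F → ∃ s ∈ Pset R 2 φ, R v s := by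
  obtain ⟨n, hn, hn'⟩ := pset1_nb (fun m => φ (0 :: m))
  obtain ⟨m, hm, hm'⟩ := pset1_nb (fun m => φ (1 :: m))
  have h : Pset R 2 φ = {v | ∃ s ∈ Pset R 1 (fun m => φ (0 :: m)), R v s} ∩
      {v | ∃ s ∈ Pset R 1 (fun m => φ (1 :: m)), R v s} := by
    ext v
    constructor
    · intro hv
      exact ⟨hv 0, hv 1⟩
    · rintro ⟨h0, h1⟩ i
      fin_cases i
      · exact h0
      · exact h1
  have hr : Rep (Pset R 2 φ) (Nat.land n m) := by
    rw [h]
    exact hn'.inter hm'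
  refine few_missing hr ?_
  have hc := check1
  rw [al_iff] at hc
  have h1 := hc _ hn
  rw [al_iff] at h1
  have h2 := h1 _ hm
  have hne : Nat.land n m ≠ 0 := by
    intro h0
    have h3 := (hr (φ [])).1 (root_mem R 2 φ hφ)
    rw [h0] at h3
    simp at h3
  cases h3 : Nat.beq (Nat.land n m) 0 with
  | true => exact absurd (Nat.eq_of_beq_eq_true h3) hne
  | false =>
    rw [h3] at h2
    exact Nat.le_of_ble_eq_true h2

theorem pset3 (φ : List (Fin 2) → Fin 16) (hφ : IsH R φ) :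
    ∃ F : Finset (Fin 16), F.card ≤ 4 ∧ ∀ v, v ∉ F → v ∈ Pset R 3 φ := by
  obtain ⟨F, hF, hF'⟩ := pset2 _ (hφ.cons 0)
  obtain ⟨F₁, hF₁, hF₁'⟩ := pset2 _ (hφ.cons 1)
  refine ⟨F ∪ F₁, (Finset.card_union_le _ _).trans (by omega), ?_⟩
  intro v hv i
  rw [Finset.mem_union, not_or] at hv
  fin_cases i
  · exact hF' v hv.1
  · exact hF₁' v hv.2

theorem pset4 (φ : List (Fin 2) → Fin 16) (hφ : IsH R φ) (v : Fin 16) : v ∈ Pset R 4 φ := by
  intro i
  obtain ⟨F, hF, hF'⟩ := pset3 _ (hφ.cons i)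
  have hc := card_nbr v
  obtain ⟨s, hs, hs'⟩ : ∃ s ∈ Finset.univ.filter (fun s => R v s), s ∉ F := by
    by_contra hcon
    push Not at hcon
    have := Finset.card_le_card (show Finset.univ.filter (fun s => R v s) ⊆ F from hcon)
    omega
  exact ⟨s, hF' s hs', (Finset.mem_filter.1 hs).2⟩

/-! ### The product -/

/-- The adjacency of the product graph. -/
def Radj (a b : Fin 16 × Fin 4) : Prop := R a.1 b.1 ∧ a.2 ≠ b.2

theorem pset_prod4 (φ : List (Fin 2) → Fin 16 × Fin 4) (hφ : IsH Radj φ) (v : Fin 16 × Fin 4) :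
    v ∈ Pset Radj 4 φ := by
  have h := pset_prod R (fun a b : Fin 4 => a ≠ b) 4 φ v.1 v.2
    (pset4 _ (fun l i => (hφ l i).1) v.1) (pset_K4 2 _ v.2)
  exact h

theorem extend4 (φ : List (Fin 2) → Fin 16 × Fin 4) (hφ : IsH Radj φ) (a : Fin 16 × Fin 4) :
    ∃ f : List (Fin 2) → Fin 16 × Fin 4, f [] = a ∧ IsH Radj f ∧
      ∀ l : List (Fin 2), 4 ≤ l.length → f l = φ l :=
  exists_extension Radj 4 φ hφ a (pset_prod4 φ hφ a)

end Pool.Agent.H206R3.Warm
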